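import Mathlib

set_option autoImplicit false

namespace Pool.Agent.Work.MP_a01b15_nt

open Finset

section nonarch

variable {L : Type*} [Field L] {v : AbsoluteValue L ℝ}

lemma v_sum_le (hv : IsNonarchimedean v) {ι : Type*} (s : Finset ι) (f : ι → L) {C : ℝ}
    (hC : 0 ≤ C) (h : ∀ i ∈ s, v (f i) ≤ C) : v (∑ i ∈ s, f i) ≤ C := by
  classical
  induction s using Finset.induction_on with
  | empty => simpa using hC
  | insert a s ha ih =>
    rw [Finset.sum_insert ha]
    refine (hv _ _).trans (max_le (h a (Finset.mem_insert_self _ _)) (ih fun i hi => ?_))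
    exact h i (Finset.mem_insert_of_mem hi)

lemma v_natCast_le (hv : IsNonarchimedean v) (n : ℕ) : v (n : L) ≤ 1 := by
  induction n with
  | zero => simp
  | succ n ih =>
    push_cast
    exact (hv _ _).trans (max_le ih (by simp))

lemma v_intCast_le (hv : IsNonarchimedean v) (n : ℤ) : v (n : L) ≤ 1 := by
  rcases Int.natAbs_eq n with h | h
  · rw [h, Int.cast_natCast]; exact v_natCast_le hv _
  · rw [h, Int.cast_neg, Int.cast_natCast, v.map_neg]
    exact v_natCast_le hv _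

lemma v_coprime (hv : IsNonarchimedean v) {p n : ℕ} (hp : v (p : L) < 1)
    (h : Nat.Coprime n p) : v (n : L) = 1 := by
  refine le_antisymm (v_natCast_le hv n) ?_
  have hb : (1 : L) = (n : L) * ((Nat.gcdA n p : ℤ) : L) + (p : L) * ((Nat.gcdB n p : ℤ) : L) := by
    have := Nat.gcd_eq_gcd_ab n p
    rw [h] at this
    have h2 := congrArg (Int.cast : ℤ → L) this
    push_cast at h2
    simpa using h2
  by_contra hlt
  push Not at hlt
  have h1 : v ((n : L) * ((Nat.gcdA n p : ℤ) : L)) < 1 := by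
    rw [v.map_mul]
    calc _ ≤ v (n : L) * 1 := by
          exact mul_le_mul_of_nonneg_left (v_intCast_le hv _) (v.nonneg _)
      _ < 1 := by simpa using hlt
  have h2 : v ((p : L) * ((Nat.gcdB n p : ℤ) : L)) < 1 := by
    rw [v.map_mul]
    calc _ ≤ v (p : L) * 1 := by
          exact mul_le_mul_of_nonneg_left (v_intCast_le hv _) (v.nonneg _)
      _ < 1 := by simpa using hp
  have h3 := (hv _ _).trans_lt (max_lt h1 h2)
  rw [← hb, v.map_one] at h3
  exact lt_irrefl _ h3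

lemma v_root {x : L} {k : ℕ} (hk : k ≠ 0) (hx : x ^ k = 1) : v x = 1 := by
  have h : (v x) ^ k = 1 := by rw [← map_pow, hx, map_one]
  exact (pow_eq_one_iff_of_nonneg (v.nonneg _) hk).mp h

lemma v_geom_le (hv : IsNonarchimedean v) {x : L} (hx : v x ≤ 1) (j : ℕ) :
    v (∑ i ∈ range j, x ^ i) ≤ 1 := by
  refine v_sum_le hv _ _ zero_le_one fun i _ => ?_
  rw [map_pow]
  exact pow_le_one₀ (v.nonneg _) hx

lemma v_one_sub_pow_le (hv : IsNonarchimedean v) {x : L} (hx : v x ≤ 1) (j : ℕ) :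
    v (1 - x ^ j) ≤ v (1 - x) := by
  have h : (1 - x ^ j) = (∑ i ∈ range j, x ^ i) * (1 - x) := by
    rw [geom_sum_mul_neg]
  rw [h, v.map_mul]
  calc _ ≤ 1 * v (1 - x) := by
        exact mul_le_mul_of_nonneg_right (v_geom_le hv hx j) (v.nonneg _)
    _ = _ := one_mul _

lemma v_one_sub_pow (hv : IsNonarchimedean v) {p : ℕ} (hp : p.Prime) {ζ : L}
    (hζ : IsPrimitiveRoot ζ p) {j : ℕ} (hj : ¬ p ∣ j) : v (1 - ζ ^ j) = v (1 - ζ) := by
  have h1 : v ζ = 1 := v_root hp.ne_zero hζ.pow_eq_one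
  refine le_antisymm (v_one_sub_pow_le hv h1.le j) ?_
  have hcop : Nat.Coprime j p := ((Nat.Prime.coprime_iff_not_dvd hp).mpr hj).symm
  obtain ⟨k, -, hk⟩ := Nat.exists_mul_mod_eq_one_of_coprime hcop hp.one_lt
  have h2 : ζ = (ζ ^ j) ^ k := by
    rw [← pow_mul, ← pow_mod_orderOf, ← hζ.eq_orderOf, hk, pow_one]
  have h3 : v (ζ ^ j) ≤ 1 := by rw [map_pow, h1, one_pow]
  calc v (1 - ζ) = v (1 - (ζ ^ j) ^ k) := by rw [← h2]
    _ ≤ _ := v_one_sub_pow_le hv h3 k

lemma v_pi_pow (hv : IsNonarchimedean v) {p : ℕ} (hp : p.Prime) {ζ : L}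
    (hζ : IsPrimitiveRoot ζ p) : v (1 - ζ) ^ (p - 1) = v (p : L) := by
  obtain ⟨n, rfl⟩ : ∃ n, p = n + 1 := ⟨p - 1, (Nat.succ_pred_eq_of_pos hp.pos).symm⟩
  have h := hζ.prod_one_sub_pow_eq_order
  have h2 := congrArg v h
  rw [map_prod] at h2
  have h3 : ∀ k ∈ range n, v (1 - ζ ^ (k + 1)) = v (1 - ζ) := by
    intro k hk
    refine v_one_sub_pow hv hp hζ ?_
    intro hd
    have := Nat.le_of_dvd (by omega) hd
    rw [Finset.mem_range] at hk
    omega
  rw [Finset.prod_congr rfl h3, Finset.prod_const, Finset.card_range] at h2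
  simpa using h2

end nonarch

section gauss

variable {K : Type*} [Field K] [Fintype K] {L : Type*} [Field L]

lemma v_mulChar_le (v : AbsoluteValue L ℝ) (χ : MulChar K L) (x : K) : v (χ x) ≤ 1 := by
  classical
  by_cases hx : x = 0
  · subst hx
    rw [MulChar.map_zero]
    simp
  · have h : (χ x) ^ (Fintype.card K - 1) = 1 := by
      rw [← map_pow, FiniteField.pow_card_sub_one_eq_one x hx, map_one]
    have hk : Fintype.card K - 1 ≠ 0 := by
      have := Fintype.one_lt_card (α := K)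
      omega
    exact (v_root hk h).le

variable {v : AbsoluteValue L ℝ}

lemma v_jacobiSum_le (hv : IsNonarchimedean v) (χ φ : MulChar K L) : v (jacobiSum χ φ) ≤ 1 := by
  unfold jacobiSum
  refine v_sum_le hv _ _ zero_le_one fun x _ => ?_
  rw [v.map_mul]
  exact mul_le_one₀ (v_mulChar_le v _ _) (v.nonneg _) (v_mulChar_le v _ _)

lemma v_gaussSum_mul_le (hv : IsNonarchimedean v) (χ φ : MulChar K L) (h : χ * φ ≠ 1)
    (ψ : AddChar K L) :
    v (gaussSum χ ψ) * v (gaussSum φ ψ) ≤ v (gaussSum (χ * φ) ψ) := by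
  rw [← v.map_mul, ← jacobiSum_mul_nontrivial h ψ, v.map_mul]
  exact mul_le_of_le_one_right (v.nonneg _) (v_jacobiSum_le hv _ _)

lemma gaussSum_pow_char (p : ℕ) [Fact p.Prime] [CharP K p] (χ : MulChar K L) (ψ : AddChar K L)
    (hψ : ∀ x, ψ (x ^ p) = ψ x) : gaussSum (χ ^ p) ψ = gaussSum χ ψ := by
  unfold gaussSum
  have hp : p ≠ 0 := (Fact.out : p.Prime).ne_zero
  have hb : Function.Bijective (fun x : K => x ^ p) := by
    have := (frobeniusEquiv K p).bijective
    exact this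
  refine Fintype.sum_bijective (fun x : K => x ^ p) hb _ _ fun x => ?_
  rw [hψ, MulChar.pow_apply' _ hp, map_pow]

lemma gaussSum_pow_char_pow (p : ℕ) [Fact p.Prime] [CharP K p] (χ : MulChar K L)
    (ψ : AddChar K L) (hψ : ∀ x, ψ (x ^ p) = ψ x) (i : ℕ) :
    gaussSum (χ ^ (p ^ i)) ψ = gaussSum χ ψ := by
  induction i with
  | zero => simp
  | succ i ih => rw [pow_succ, pow_mul, gaussSum_pow_char p _ ψ hψ, ih]

lemma v_gaussSum_mul_inv (χ : MulChar K L) (hχ : χ ≠ 1) (ψ : AddChar K L)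
    (hψ : ψ.IsPrimitive) :
    v (gaussSum χ ψ) * v (gaussSum χ⁻¹ ψ) = v (Fintype.card K : L) := by
  rw [← gaussSum_mul_gaussSum_eq_card hχ hψ, v.map_mul]
  congr 1
  have h := mul_gaussSum_inv_eq_gaussSum χ⁻¹ ψ
  rw [← h, v.map_mul]
  have h1 : (χ⁻¹ (-1)) ^ 2 = 1 := by
    rw [← map_pow]
    simp
  rw [v_root two_ne_zero h1, one_mul]

/-- Some nontrivial character has a large Gauss sum. -/
lemma exists_large [IsAlgClosed L] [CharZero L] (hv : IsNonarchimedean v) (p : ℕ)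
    [Fact p.Prime] [CharP K p] (hp2 : p ≠ 2) (hp1 : v (p : L) < 1)
    (ψ : AddChar K L) (hψ : ψ.IsPrimitive) {ζ : L} (hζ : IsPrimitiveRoot ζ p) :
    ∃ χ : MulChar K L, χ ≠ 1 ∧ v (1 - ζ) ≤ v (gaussSum χ ψ) := by
  classical
  have hp : p.Prime := Fact.out
  by_contra hcon
  push Not at hcon
  have : Fintype (MulChar K L) := Fintype.ofFinite _
  -- orthogonality
  have horth : ∀ u : K, u ≠ 1 → ∑ χ : MulChar K L, χ u = 0 := by
    intro u hu
    obtain ⟨χ', hχ'⟩ := MulChar.exists_apply_ne_one_of_hasEnoughRootsOfUnity K L hu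
    have h1 : ∑ χ : MulChar K L, (χ' * χ) u = ∑ χ : MulChar K L, χ u :=
      Fintype.sum_bijective (fun χ => χ' * χ) (Group.mulLeft_bijective χ') _ _ fun _ => rfl
    simp only [MulChar.mul_apply, ← Finset.mul_sum] at h1
    have h2 : (χ' u - 1) * ∑ χ : MulChar K L, χ u = 0 := by rw [sub_mul, h1, one_mul, sub_self]
    rcases mul_eq_zero.mp h2 with h | h
    · exact absurd (sub_eq_zero.mp h) hχ'
    · exact h
  have hsum : ∀ y : K, y ≠ 0 → ∑ χ : MulChar K L, χ y⁻¹ * gaussSum χ ψ =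
      (Fintype.card (MulChar K L) : L) * ψ y := by
    intro y hy
    unfold gaussSum
    simp only [Finset.mul_sum]
    rw [Finset.sum_comm, Finset.sum_eq_single y]
    · have : ∀ χ : MulChar K L, χ y⁻¹ * (χ y * ψ y) = ψ y := by
        intro χ
        rw [← mul_assoc, ← map_mul, inv_mul_cancel₀ hy, map_one, one_mul]
      simp only [this, Finset.sum_const, Finset.card_univ, nsmul_eq_mul]
    · intro x _ hxy
      have : ∀ χ : MulChar K L, χ y⁻¹ * (χ x * ψ x) = χ (y⁻¹ * x) * ψ x := by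
        intro χ
        rw [← mul_assoc, ← map_mul]
      simp only [this, ← Finset.sum_mul]
      rw [horth, zero_mul]
      intro h
      apply hxy
      rw [inv_mul_eq_one₀ hy] at h
      exact h.symm
    · intro h; simp at h
  -- choose y with ψ y ≠ 1
  obtain ⟨y, hy⟩ : ∃ y, ψ y ≠ 1 := by
    by_contra h
    push Not at h
    have := hψ (one_ne_zero (α := K))
    apply this
    ext x
    simp [h x]
  have hy0 : y ≠ 0 := by
    rintro rfl
    exact hy (AddChar.map_zero_eq_one ψ)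
  have h2y : (2 * y : K) ≠ 0 := by
    refine mul_ne_zero ?_ hy0
    intro h2
    have : ((2 : ℕ) : K) = 0 := by exact_mod_cast h2
    rw [CharP.cast_eq_zero_iff K p] at this
    exact hp2 ((Nat.prime_dvd_prime_iff_eq hp Nat.prime_two).mp this)
  -- values of ψ are powers of ζ
  have hψp : (ψ y) ^ p = 1 := by
    rw [← AddChar.map_nsmul_eq_pow]
    simp
  obtain ⟨j, hj, hjy⟩ := hζ.eq_pow_of_pow_eq_one hψp
  have hjnd : ¬ p ∣ j := by
    rintro ⟨k, rfl⟩
    apply hy
    rw [← hjy, pow_mul, hζ.pow_eq_one, one_pow]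
  have hdiff : v (ψ y - ψ (2 * y)) = v (1 - ζ) := by
    have h1 : ψ (2 * y) = ψ y * ψ y := by rw [two_mul, AddChar.map_add_eq_mul]
    have h2 : ψ y - ψ (2 * y) = ψ y * (1 - ζ ^ j) := by rw [h1, hjy]; ring
    rw [h2, v.map_mul, v_root hp.ne_zero hψp, one_mul, v_one_sub_pow hv hp hζ hjnd]
  have hpi : 0 < v (1 - ζ) := by
    rw [v.pos_iff]
    intro h
    have h1 : ζ = 1 := (sub_eq_zero.mp h).symm
    exact hp.one_lt.ne' (IsPrimitiveRoot.unique (h1 ▸ hζ) IsPrimitiveRoot.one)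
  -- the card is a unit
  have hcard : v (Fintype.card (MulChar K L) : L) = 1 := by
    refine v_coprime hv hp1 ?_
    have h1 : Fintype.card (MulChar K L) = Fintype.card K - 1 := by
      rw [← Nat.card_eq_fintype_card, MulChar.card_eq_card_units_of_hasEnoughRootsOfUnity K L,
        Nat.card_units, Nat.card_eq_fintype_card]
    rw [h1]
    obtain ⟨n, -, hn⟩ := FiniteField.card K p
    rw [hn]
    have h2 : p ∣ p ^ (n : ℕ) := dvd_pow_self p n.ne_zero
    rw [Nat.coprime_comm, Nat.Prime.coprime_iff_not_dvd hp]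
    intro h3
    have h4 : 1 ≤ p ^ (n : ℕ) := Nat.one_le_pow _ _ hp.pos
    have h5 := Nat.dvd_sub h2 h3
    rw [Nat.sub_sub_self h4] at h5
    exact hp.one_lt.ne' (Nat.dvd_one.mp h5)
  have hmain : (Fintype.card (MulChar K L) : L) * (ψ y - ψ (2 * y)) =
      ∑ χ ∈ (Finset.univ.erase (1 : MulChar K L)), (χ y⁻¹ - χ (2 * y)⁻¹) * gaussSum χ ψ := by
    rw [mul_sub, ← hsum y hy0, ← hsum (2 * y) h2y, ← Finset.sum_sub_distrib,
      ← Finset.add_sum_erase _ _ (Finset.mem_univ (1 : MulChar K L))]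
    have hz : (1 : MulChar K L) y⁻¹ * gaussSum 1 ψ - (1 : MulChar K L) (2 * y)⁻¹ * gaussSum 1 ψ
        = 0 := by
      rw [MulChar.one_apply (isUnit_iff_ne_zero.mpr (inv_ne_zero hy0)),
        MulChar.one_apply (isUnit_iff_ne_zero.mpr (inv_ne_zero h2y)), sub_self]
    rw [hz, zero_add]
    refine Finset.sum_congr rfl fun χ _ => ?_
    rw [sub_mul]
  have hlt : ∃ C < v (1 - ζ), 0 ≤ C ∧ ∀ χ ∈ (Finset.univ.erase (1 : MulChar K L)),
      v (gaussSum χ ψ) ≤ C := by
    rcases (Finset.univ.erase (1 : MulChar K L)).eq_empty_or_nonempty with he | hne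
    · exact ⟨0, hpi, le_rfl, by rw [he]; simp⟩
    · obtain ⟨χ, hχ, hmax⟩ := Finset.exists_max_image _ (fun χ => v (gaussSum χ ψ)) hne
      exact ⟨v (gaussSum χ ψ), hcon χ (Finset.ne_of_mem_erase hχ), v.nonneg _, hmax⟩
  obtain ⟨C, hC, hC0, hCb⟩ := hlt
  have h1 : v ((Fintype.card (MulChar K L) : L) * (ψ y - ψ (2 * y))) ≤ C := by
    rw [hmain]
    refine v_sum_le hv _ _ hC0 fun χ hχ => ?_
    rw [v.map_mul]
    have h2 : v (χ y⁻¹ - χ (2 * y)⁻¹) ≤ 1 := by
      rw [sub_eq_add_neg]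
      refine (hv _ _).trans (max_le (v_mulChar_le v _ _) ?_)
      rw [v.map_neg]
      exact v_mulChar_le v _ _
    calc _ ≤ 1 * C := mul_le_mul h2 (hCb χ hχ) (v.nonneg _) zero_le_one
      _ = C := one_mul C
  rw [v.map_mul, hcard, one_mul, hdiff] at h1
  exact absurd h1 (not_le.mpr hC)

/-- Superadditivity along sums of powers of `p`. -/
lemma v_gaussSum_pow_ge (hv : IsNonarchimedean v) (p : ℕ) [Fact p.Prime] [CharP K p]
    (ψ : AddChar K L) (hψ : ψ.IsPrimitive) (hψ' : ∀ x, ψ (x ^ p) = ψ x)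
    (χ : MulChar K L) {c : ℝ} (hc : 0 ≤ c) (hχ : c ≤ v (gaussSum χ ψ)) {m : ℕ}
    (hm : ∀ B, 0 < B → B < m → χ ^ B ≠ 1) (d : ℕ → ℕ) (k : ℕ)
    (hA : ∑ i ∈ range k, d i * p ^ i < m) :
    c ^ (∑ i ∈ range k, d i) ≤ v (gaussSum (χ ^ (∑ i ∈ range k, d i * p ^ i)) ψ) := by
  have hψ1 : ψ ≠ 1 := by
    intro h
    apply hψ (one_ne_zero (α := K))
    rw [h]
    ext x
    simp
  have hone : v (gaussSum (1 : MulChar K L) ψ) = 1 := by
    rw [gaussSum_one_left hψ1, v.map_neg, v.map_one]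
  have step : ∀ A B s t : ℕ, A + B < m → c ^ s ≤ v (gaussSum (χ ^ A) ψ) →
      c ^ t ≤ v (gaussSum (χ ^ B) ψ) → c ^ (s + t) ≤ v (gaussSum (χ ^ (A + B)) ψ) := by
    intro A B s t hAB h1 h2
    rcases Nat.eq_zero_or_pos (A + B) with h0 | h0
    · have hA0 : A = 0 := by omega
      have hB0 : B = 0 := by omega
      subst hA0 hB0
      rw [pow_zero, hone] at h1 h2
      rw [pow_zero, hone, pow_add]
      exact mul_le_one₀ h1 (by positivity) h2
    · rw [pow_add, pow_add]
      refine le_trans ?_ (v_gaussSum_mul_le hv _ _ ?_ ψ)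
      · exact mul_le_mul h1 h2 (by positivity) (v.nonneg _)
      · rw [← pow_add]
        exact hm _ h0 hAB
  induction k with
  | zero => simp [hone]
  | succ k ih =>
    rw [Finset.sum_range_succ] at hA
    rw [Finset.sum_range_succ, Finset.sum_range_succ]
    refine step _ _ _ _ hA (ih (by omega)) ?_
    have hdk : d k * p ^ k < m := by omega
    generalize d k = e at hdk
    induction e with
    | zero => simp [hone]
    | succ e ihe =>
      have h1 : (e + 1) * p ^ k = e * p ^ k + p ^ k := by ring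
      rw [h1] at hdk ⊢
      refine step _ _ _ _ hdk (ihe (by omega)) ?_
      rw [pow_one, gaussSum_pow_char_pow p χ ψ hψ']
      exact hχ

lemma sum_digits_mod (p A : ℕ) (n : ℕ) :
    ∑ i ∈ range n, (A / p ^ i % p) * p ^ i = A % p ^ n := by
  induction n with
  | zero => simp [Nat.mod_one]
  | succ n ih =>
    rw [Finset.sum_range_succ, ih, Nat.mod_pow_succ]
    ring

/-- **Stickelberger's theorem** (valuations of Gauss sums): there is a generator `χ` of the group
of multiplicative characters of `K` such that the Gauss sum of `χ ^ A`, where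
`A = ∑ d i * p ^ i` with digits `d i ≤ p - 1`, has absolute value `|1 - ζ| ^ (∑ d i)`. -/
theorem stickelberger [IsAlgClosed L] [CharZero L] (hv : IsNonarchimedean v) (p : ℕ)
    [Fact p.Prime] [CharP K p] (hp2 : p ≠ 2) (hp1 : v (p : L) < 1) {n : ℕ}
    (hn : Fintype.card K = p ^ n)
    (ψ : AddChar K L) (hψ : ψ.IsPrimitive) (hψ' : ∀ x, ψ (x ^ p) = ψ x)
    {ζ : L} (hζ : IsPrimitiveRoot ζ p) :
    ∃ χ : MulChar K L, orderOf χ = p ^ n - 1 ∧
      ∀ d : ℕ → ℕ, (∀ i < n, d i ≤ p - 1) → 0 < ∑ i ∈ range n, d i * p ^ i →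
        ∑ i ∈ range n, d i * p ^ i < p ^ n - 1 →
        v (gaussSum (χ ^ (∑ i ∈ range n, d i * p ^ i)) ψ) =
          v (1 - ζ) ^ (∑ i ∈ range n, d i) := by
  have hp : p.Prime := Fact.out
  obtain ⟨χ, hχ1, hχ⟩ := exists_large hv p hp2 hp1 ψ hψ hζ
  set c := v (1 - ζ) with hc
  have hc0 : 0 < c := by
    rw [hc, v.pos_iff]
    intro h
    have h1 : ζ = 1 := (sub_eq_zero.mp h).symm
    exact hp.one_lt.ne' (IsPrimitiveRoot.unique (h1 ▸ hζ) IsPrimitiveRoot.one)
  have hcp : c ^ (p - 1) = v (p : L) := v_pi_pow hv hp hζ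
  have hc1 : c < 1 := by
    by_contra h
    push Not at h
    have := one_le_pow₀ h (n := p - 1)
    rw [hcp] at this
    linarith
  have hn0 : n ≠ 0 := by
    rintro rfl
    have := Fintype.one_lt_card (α := K)
    rw [hn] at this
    simp at this
  have hcard : v (Fintype.card K : L) = c ^ (n * (p - 1)) := by
    rw [hn, mul_comm, pow_mul, hcp]
    push_cast
    rw [map_pow]
  set m := orderOf χ with hm
  have hmdvd : m ∣ p ^ n - 1 := by
    rw [← hn]
    exact MulChar.orderOf_dvd_card_sub_one _ χ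
  have hpn : 1 < p ^ n := Nat.one_lt_pow hn0 hp.one_lt
  have hm0 : 0 < m := Nat.pos_of_dvd_of_pos hmdvd (by omega)
  have hmle : m ≤ p ^ n - 1 := Nat.le_of_dvd (by omega) hmdvd
  have hB : ∀ B, 0 < B → B < m → χ ^ B ≠ 1 := fun B h0 hlt =>
    pow_ne_one_of_lt_orderOf h0.ne' hlt
  have hsumtop : ∑ i ∈ range n, (p - 1) * p ^ i = p ^ n - 1 := by
    rw [← Finset.mul_sum, mul_comm]
    have := Nat.geomSum_eq (show 2 ≤ p from hp.two_le) n
    rw [this, Nat.div_mul_cancel]
    exact Nat.sub_one_dvd_pow_sub_one p n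
  -- the order is maximal
  have hmeq : m = p ^ n - 1 := by
    set d : ℕ → ℕ := fun i => (m - 1) / p ^ i % p with hd
    have hdle : ∀ i, d i ≤ p - 1 := fun i => Nat.le_sub_one_of_lt (Nat.mod_lt _ hp.pos)
    have hdsum : ∑ i ∈ range n, d i * p ^ i = m - 1 := by
      rw [hd, sum_digits_mod, Nat.mod_eq_of_lt (by omega)]
    have h1 := v_gaussSum_pow_ge hv p ψ hψ hψ' χ hc0.le hχ hB d n (by rw [hdsum]; omega)
    rw [hdsum] at h1
    have h2 : χ ^ (m - 1) = χ⁻¹ := by
      refine (inv_eq_of_mul_eq_one_right ?_).symm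
      rw [← pow_succ', Nat.sub_one_add_one hm0.ne', hm, pow_orderOf_eq_one]
    rw [h2] at h1
    have h3 := v_gaussSum_mul_inv (v := v) χ hχ1 ψ hψ
    rw [hcard] at h3
    have h4 : c ^ (1 + ∑ i ∈ range n, d i) ≤ c ^ (n * (p - 1)) := by
      rw [← h3, pow_add, pow_one]
      exact mul_le_mul hχ h1 (by positivity) (v.nonneg _)
    have h5 : n * (p - 1) ≤ 1 + ∑ i ∈ range n, d i := by
      by_contra hlt
      push Not at hlt
      exact absurd h4 (not_le.mpr (pow_lt_pow_right_of_lt_one₀ hc0 hc1 hlt))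
    have h6 : ∑ i ∈ range n, (p - 1 - d i) ≤ 1 := by
      have h7 : ∑ i ∈ range n, (p - 1 - d i) + ∑ i ∈ range n, d i = n * (p - 1) := by
        rw [← Finset.sum_add_distrib]
        rw [Finset.sum_congr rfl (fun i _ => Nat.sub_add_cancel (hdle i))]
        simp
      omega
    have h8 : ∑ i ∈ range n, (p - 1 - d i) * p ^ i ≤ p ^ (n - 1) := by
      calc ∑ i ∈ range n, (p - 1 - d i) * p ^ i
          ≤ ∑ i ∈ range n, (p - 1 - d i) * p ^ (n - 1) := by
            refine Finset.sum_le_sum fun i hi => Nat.mul_le_mul_left _ ?_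
            rw [Finset.mem_range] at hi
            exact Nat.pow_le_pow_right hp.pos (by omega)
        _ = (∑ i ∈ range n, (p - 1 - d i)) * p ^ (n - 1) := by rw [Finset.sum_mul]
        _ ≤ 1 * p ^ (n - 1) := Nat.mul_le_mul_right _ h6
        _ = p ^ (n - 1) := one_mul _
    have h9 : ∑ i ∈ range n, (p - 1 - d i) * p ^ i + (m - 1) = p ^ n - 1 := by
      rw [← hdsum, ← Finset.sum_add_distrib, ← hsumtop]
      refine Finset.sum_congr rfl fun i _ => ?_
      rw [← add_mul, Nat.sub_add_cancel (hdle i)]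
    have h10 : p ^ n = p ^ (n - 1) * p := by
      rw [← pow_succ, Nat.sub_one_add_one hn0]
    have h11 : p ^ (n - 1) * 2 ≤ p ^ n := by
      rw [h10]
      exact Nat.mul_le_mul_left _ hp.two_le
    obtain ⟨k, hk⟩ := hmdvd
    have hk0 : k ≠ 0 := by
      rintro rfl
      omega
    have hk2 : k < 2 := by
      by_contra hlt
      push Not at hlt
      have : m * 2 ≤ m * k := Nat.mul_le_mul_left _ hlt
      omega
    have hk1 : k = 1 := by omega
    rw [hk1] at hk
    omega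
  refine ⟨χ, hmeq, ?_⟩
  intro d hd hpos hlt
  have h1 := v_gaussSum_pow_ge hv p ψ hψ hψ' χ hc0.le hχ hB d n (by rw [hmeq]; exact hlt)
  have hcomp : ∑ i ∈ range n, (p - 1 - d i) * p ^ i + ∑ i ∈ range n, d i * p ^ i = p ^ n - 1 := by
    rw [← Finset.sum_add_distrib, ← hsumtop]
    refine Finset.sum_congr rfl fun i hi => ?_
    rw [← add_mul, Nat.sub_add_cancel (hd i (Finset.mem_range.mp hi))]
  have hcomp' : ∑ i ∈ range n, (p - 1 - d i) + ∑ i ∈ range n, d i = n * (p - 1) := by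
    rw [← Finset.sum_add_distrib]
    rw [Finset.sum_congr rfl
      (fun i hi => Nat.sub_add_cancel (hd i (Finset.mem_range.mp hi)))]
    simp
  have h2 := v_gaussSum_pow_ge hv p ψ hψ hψ' χ hc0.le hχ hB (fun i => p - 1 - d i) n
    (by rw [hmeq]; omega)
  set A := ∑ i ∈ range n, d i * p ^ i with hA
  set A' := ∑ i ∈ range n, (p - 1 - d i) * p ^ i with hA'
  have h3 : χ ^ A' = (χ ^ A)⁻¹ := by
    refine (inv_eq_of_mul_eq_one_right ?_).symm
    rw [← pow_add, show A + A' = m by omega, hm, pow_orderOf_eq_one]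
  rw [h3] at h2
  have hne : χ ^ A ≠ 1 := hB A hpos (by omega)
  have h4 := v_gaussSum_mul_inv (v := v) (χ ^ A) hne ψ hψ
  rw [hcard, ← hcomp', pow_add] at h4
  refine le_antisymm ?_ h1
  by_contra hgt
  push Not at hgt
  have h5 : c ^ (∑ i ∈ range n, (p - 1 - d i)) * c ^ (∑ i ∈ range n, d i) <
      v (gaussSum (χ ^ A) ψ) * v (gaussSum (χ ^ A)⁻¹ ψ) := by
    rw [mul_comm]
    exact mul_lt_mul hgt h2 (by positivity) (v.nonneg _)
  rw [h4] at h5
  exact lt_irrefl _ h5

end gauss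

end Pool.Agent.Work.MP_a01b15_nt
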