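import Mathlib
import Pool.Agent.Work.MP_a01b15_nt.Stick

set_option autoImplicit false

namespace Pool.Agent.Work.MP_a01b15_nt

open Finset

/-- `+1` on residues in `[0, H)` modulo `2 H`, and `-1` on the others -/
def sg (H x : ℕ) : ℤ := if x % (2 * H) < H then 1 else -1

/-- digits -/
def dg (p N a i : ℕ) : ℕ := p * (p ^ i * a % N) / N

lemma dg_spec (p N a i : ℕ) :
    p * (p ^ i * a % N) = N * dg p N a i + p ^ (i + 1) * a % N := by
  have h1 : p ^ (i + 1) * a % N = (p * (p ^ i * a % N)) % N := by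
    rw [Nat.mul_mod_mod, pow_succ]
    congr 1
    ring
  rw [h1, dg, Nat.div_add_mod]

lemma dg_le (p N a i : ℕ) (hp : 0 < p) (hN : 0 < N) : dg p N a i ≤ p - 1 := by
  have h : p ^ i * a % N < N := Nat.mod_lt _ hN
  unfold dg
  apply Nat.le_sub_one_of_lt
  rw [Nat.div_lt_iff_lt_mul hN]
  exact Nat.mul_lt_mul_of_pos_left h hp

lemma sum_dg_pow (p N a k : ℕ) (ha : a < N) :
    p ^ k * a = N * ∑ i ∈ range k, dg p N a i * p ^ (k - 1 - i) + p ^ k * a % N := by
  induction k with
  | zero => simp [Nat.mod_eq_of_lt ha]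
  | succ k ih =>
    rw [Finset.sum_range_succ]
    have h1 : ∑ i ∈ range k, dg p N a i * p ^ (k + 1 - 1 - i) =
        p * ∑ i ∈ range k, dg p N a i * p ^ (k - 1 - i) := by
      rw [Finset.mul_sum]
      refine Finset.sum_congr rfl fun i hi => ?_
      rw [Finset.mem_range] at hi
      have : k + 1 - 1 - i = (k - 1 - i) + 1 := by omega
      rw [this, pow_succ]
      ring
    rw [h1]
    have h2 : k + 1 - 1 - k = 0 := by omega
    rw [h2, pow_zero, mul_one, mul_add, add_assoc, ← dg_spec]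
    calc p ^ (k + 1) * a = p * (p ^ k * a) := by ring
      _ = p * (N * ∑ i ∈ range k, dg p N a i * p ^ (k - 1 - i) + p ^ k * a % N) := by rw [← ih]
      _ = _ := by ring

lemma sum_dg (p N a k : ℕ) (hp : 0 < p) :
    (N * ∑ i ∈ range k, dg p N a i) + p ^ k * a % N =
      (p - 1) * (∑ i ∈ range k, p ^ i * a % N) + a % N := by
  induction k with
  | zero => simp
  | succ k ih =>
    rw [Finset.sum_range_succ, Finset.sum_range_succ, mul_add, mul_add]
    have h := dg_spec p N a k
    have h1 : p * (p ^ k * a % N) = (p - 1) * (p ^ k * a % N) + p ^ k * a % N := by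
      obtain ⟨q, rfl⟩ : ∃ q, p = q + 1 := ⟨p - 1, (Nat.succ_pred_eq_of_pos hp).symm⟩
      simp only [Nat.add_sub_cancel]
      ring
    omega

/-- If the Gauss sums of `λ` and `λ ^ (1 + N / 2)` have the same valuation for all characters of
exact order `N = 2 H`, then `∑ sg (p ^ i a) = 0` for all `a` prime to `N`. -/
theorem sum_sg_eq_zero {K : Type*} [Field K] [Fintype K] {L : Type*} [Field L] [IsAlgClosed L]
    [CharZero L] {v : AbsoluteValue L ℝ}
    (hv : IsNonarchimedean v) (p : ℕ)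
    [Fact p.Prime] [CharP K p] (hp2 : p ≠ 2) (hp1 : v (p : L) < 1) {n : ℕ}
    (hn : Fintype.card K = p ^ n)
    (ψ : AddChar K L) (hψ : ψ.IsPrimitive) (hψ' : ∀ x, ψ (x ^ p) = ψ x)
    {H : ℕ} (hH : 1 < H) (hdvd : 2 * H ∣ p ^ n - 1)
    (hyp : ∀ χ : MulChar K L, orderOf χ = 2 * H →
      v (gaussSum (χ ^ (1 + H)) ψ) = v (gaussSum χ ψ))
    (a : ℕ) (ha : Nat.Coprime a (2 * H)) :
    ∑ i ∈ range n, sg H (p ^ i * a) = 0 := by
  have hp : p.Prime := Fact.out
  obtain ⟨ζ, hζ⟩ := HasEnoughRootsOfUnity.exists_primitiveRoot L p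
  obtain ⟨χ, hχ, hS⟩ := stickelberger hv p hp2 hp1 hn ψ hψ hψ' hζ
  set c := v (1 - ζ) with hc
  have hc0 : 0 < c := by
    rw [hc, v.pos_iff]
    intro h
    have h1 : ζ = 1 := (sub_eq_zero.mp h).symm
    exact hp.one_lt.ne' (IsPrimitiveRoot.unique (h1 ▸ hζ) IsPrimitiveRoot.one)
  have hcp : c ^ (p - 1) = v (p : L) := v_pi_pow hv hp hζ
  have hc1 : c < 1 := by
    by_contra h
    push Not at h
    have := one_le_pow₀ h (n := p - 1)
    rw [hcp] at this
    linarith
  have hn0 : n ≠ 0 := by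
    rintro rfl
    have := Fintype.one_lt_card (α := K)
    rw [hn] at this
    simp at this
  have hpn : 1 < p ^ n := Nat.one_lt_pow hn0 hp.one_lt
  set N := 2 * H with hN
  obtain ⟨M, hM⟩ := hdvd
  have hM0 : 0 < M := by
    rcases Nat.eq_zero_or_pos M with h | h
    · rw [h] at hM; omega
    · exact h
  have hN0 : 0 < N := by omega
  have hpodd : p % 2 = 1 := hp.eq_two_or_odd.resolve_left hp2
  have hpnmod : p ^ n % N = 1 % N := by
    have h1 : p ^ n = 1 + N * M := by omega
    rw [h1, Nat.add_mul_mod_self_left]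
  -- valuation of the Gauss sum of `χ ^ (a M)`
  have key : ∀ a, 0 < a → a < N →
      v (gaussSum (χ ^ (a * M)) ψ) = c ^ (∑ i ∈ range n, dg p N a i) := by
    intro a ha0 haN
    have h1 := sum_dg_pow p N a n haN
    have h2 : p ^ n * a % N = a := by
      rw [Nat.mul_mod, hpnmod, Nat.mod_mul_mod, Nat.mul_mod_mod, one_mul, Nat.mod_eq_of_lt haN]
    rw [h2] at h1
    have h3 : ∑ i ∈ range n, dg p N a i * p ^ (n - 1 - i) = a * M := by
      have h4 : N * (∑ i ∈ range n, dg p N a i * p ^ (n - 1 - i)) = N * (a * M) := by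
        have h5 : p ^ n * a = (N * M) * a + a := by
          have : p ^ n = N * M + 1 := by omega
          rw [this]; ring
        have h6 : N * (a * M) = (N * M) * a := by ring
        rw [h6]
        omega
      exact Nat.eq_of_mul_eq_mul_left hN0 h4
    have h4 : ∑ i ∈ range n, dg p N a (n - 1 - i) * p ^ i = a * M := by
      rw [← h3, ← Finset.sum_range_reflect]
      refine Finset.sum_congr rfl fun i hi => ?_
      rw [Finset.mem_range] at hi
      congr 2
      omega
    have h5 : ∑ i ∈ range n, dg p N a (n - 1 - i) = ∑ i ∈ range n, dg p N a i :=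
      Finset.sum_range_reflect _ n
    have h6 := hS (fun i => dg p N a (n - 1 - i)) (fun i _ => dg_le p N a _ hp.pos hN0)
      (by rw [h4]; positivity)
      (by
        rw [h4, hM]
        exact Nat.mul_lt_mul_of_pos_right haN hM0)
    rw [h4, h5] at h6
    exact h6
  -- reduce `a`
  have hmodpow : ∀ i, p ^ i * a % N = p ^ i * (a % N) % N := by
    intro i
    rw [Nat.mul_mod_mod]
  have hsgmod : ∀ i, sg H (p ^ i * a) = sg H (p ^ i * (a % N)) := by
    intro i
    unfold sg
    rw [← hN, hmodpow]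
  set a' := a % N with ha'
  have ha'cop : Nat.Coprime a' N := by
    have h1 : Nat.gcd (a % N) N = Nat.gcd a N := by
      rw [← Nat.gcd_rec, Nat.gcd_comm]
    rw [Nat.coprime_iff_gcd_eq_one, ha', h1]
    exact ha
  have ha'N : a' < N := Nat.mod_lt _ hN0
  have ha'0 : 0 < a' := by
    rcases Nat.eq_zero_or_pos a' with h | h
    · rw [h] at ha'cop
      have : N = 1 := by simpa using ha'cop
      omega
    · exact h
  have ha'odd : a' % 2 = 1 := by
    rcases Nat.mod_two_eq_zero_or_one a' with h | h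
    · exfalso
      have h2 : 2 ∣ Nat.gcd a' N := Nat.dvd_gcd (Nat.dvd_of_mod_eq_zero h) ⟨H, hN⟩
      rw [ha'cop] at h2
      omega
    · exact h
  -- the shifted residue
  set b := (a' + H) % N with hb
  have hbN : b < N := Nat.mod_lt _ hN0
  have hshift : ∀ r, r < N → (r + H) % N = if r < H then r + H else r - H := by
    intro r hr
    split_ifs with h
    · rw [Nat.mod_eq_of_lt (by omega)]
    · have : r + H = (r - H) + N := by omega
      rw [this, Nat.add_mod_right, Nat.mod_eq_of_lt (by omega)]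
  have hb0 : 0 < b := by
    rw [hb, hshift a' ha'N]
    split_ifs with h
    · omega
    · have hne : a' ≠ H := by
        intro h1
        have h2 : H ∣ Nat.gcd a' N := Nat.dvd_gcd (by rw [h1]) ⟨2, by omega⟩
        rw [ha'cop, Nat.dvd_one] at h2
        omega
      omega
  have hord : orderOf (χ ^ (a' * M)) = N := by
    rw [orderOf_pow, hχ, hM, mul_comm N M, mul_comm a' M, Nat.gcd_mul_left,
      Nat.Coprime.gcd_eq_one ha'cop.symm, mul_one, Nat.mul_div_cancel_left _ hM0]
  have h1 := hyp _ hord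
  have h2 : (χ ^ (a' * M)) ^ (1 + H) = χ ^ (b * M) := by
    rw [← pow_mul, pow_eq_pow_iff_modEq, hχ, hM]
    have h3 : a' * M * (1 + H) = a' * (1 + H) * M := by ring
    rw [h3]
    apply Nat.ModEq.mul_right'
    have h4 : a' * (1 + H) = (a' + H) + N * (a' / 2) := by
      have h5 : a' = 2 * (a' / 2) + 1 := by omega
      have h6 : a' * H = (2 * (a' / 2) + 1) * H := by rw [← h5]
      rw [mul_add, mul_one, h6, hN]
      ring
    rw [h4]
    unfold Nat.ModEq
    rw [Nat.add_mul_mod_self_left, hb, Nat.mod_mod]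
  rw [h2, key b hb0 hbN, key a' ha'0 ha'N] at h1
  have h3 : ∑ i ∈ range n, dg p N b i = ∑ i ∈ range n, dg p N a' i :=
    pow_right_injective₀ hc0 hc1.ne h1
  have h4 : ∀ x, x < N → N * ∑ i ∈ range n, dg p N x i =
      (p - 1) * ∑ i ∈ range n, p ^ i * x % N := by
    intro x hx
    have h5 := sum_dg p N x n hp.pos
    have h6 : p ^ n * x % N = x := by
      rw [Nat.mul_mod, hpnmod, Nat.mod_mul_mod, Nat.mul_mod_mod, one_mul, Nat.mod_eq_of_lt hx]
    rw [h6, Nat.mod_eq_of_lt hx] at h5
    omega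
  have h5 : ∑ i ∈ range n, p ^ i * b % N = ∑ i ∈ range n, p ^ i * a' % N := by
    have h6 := h4 b hbN
    rw [h3, h4 a' ha'N] at h6
    have hp1' : 0 < p - 1 := by have := hp.two_le; omega
    exact (Nat.eq_of_mul_eq_mul_left hp1' h6).symm
  have h6 : ∀ i, p ^ i * b % N = (p ^ i * a' % N + H) % N := by
    intro i
    have hpi : p ^ i % 2 = 1 := by
      simp [Nat.pow_mod, hpodd]
    have h7 : p ^ i * H = H + N * (p ^ i / 2) := by
      have h8 : p ^ i = 2 * (p ^ i / 2) + 1 := by omega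
      calc p ^ i * H = (2 * (p ^ i / 2) + 1) * H := by rw [← h8]
        _ = _ := by rw [hN]; ring
    rw [hb, Nat.mul_mod_mod, mul_add, h7, Nat.mod_add_mod, ← add_assoc, Nat.add_mul_mod_self_left]
  have h7 : ∀ i, ((p ^ i * b % N : ℕ) : ℤ) = (p ^ i * a' % N : ℕ) + (H : ℤ) * sg H (p ^ i * a') := by
    intro i
    rw [h6 i, hshift _ (Nat.mod_lt _ hN0)]
    unfold sg
    rw [← hN]
    split_ifs with h
    · push_cast; ring
    · have : H ≤ p ^ i * a' % N := by omega
      push_cast [Nat.cast_sub this]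
      ring
  have h8 : (H : ℤ) * ∑ i ∈ range n, sg H (p ^ i * a') = 0 := by
    have h9 : ((∑ i ∈ range n, p ^ i * b % N : ℕ) : ℤ) =
        ((∑ i ∈ range n, p ^ i * a' % N : ℕ) : ℤ) := by rw [h5]
    rw [Nat.cast_sum, Nat.cast_sum, Finset.sum_congr rfl (fun i _ => h7 i),
      Finset.sum_add_distrib, ← Finset.mul_sum] at h9
    linarith
  rw [Finset.sum_congr rfl (fun i _ => hsgmod i)]
  rcases mul_eq_zero.mp h8 with h | h
  · exfalso
    have : H = 0 := by exact_mod_cast h
    omega
  · exact h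

end Pool.Agent.Work.MP_a01b15_nt
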