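import Mathlib

set_option autoImplicit false

namespace Pool.Agent.Work.MP_a01b15_nt

open Complex Finset Filter Topology Asymptotics Set

variable {N : ℕ} [NeZero N]

/-- `∑ j, Φ j * exp (-j t)`, the sum over one period -/
noncomputable def num (Φ : ZMod N → ℂ) (t : ℝ) : ℂ :=
  ∑ j : ZMod N, Φ j * ((Real.exp (-(j.val : ℝ) * t) : ℝ) : ℂ)

/-- `∑_{n ≥ 0} Φ n * exp (-n t)` -/
noncomputable def FF (Φ : ZMod N → ℂ) (t : ℝ) : ℂ :=
  num Φ t * (((1 - Real.exp (-(N : ℝ) * t))⁻¹ : ℝ) : ℂ)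

lemma Npos : (0 : ℝ) < N := by exact_mod_cast Nat.pos_of_ne_zero (NeZero.ne N)

lemma None_le : (1 : ℝ) ≤ N := by exact_mod_cast Nat.pos_of_ne_zero (NeZero.ne N)

lemma hasSum_FF (Φ : ZMod N → ℂ) {t : ℝ} (ht : 0 < t) :
    HasSum (fun n : ℕ => Φ n * ((Real.exp (-(n : ℝ) * t) : ℝ) : ℂ)) (FF Φ t) := by
  have hsumm : Summable (fun n : ℕ => Φ n * ((Real.exp (-(n : ℝ) * t) : ℝ) : ℂ)) := by
    have h1 : Summable (fun n : ℕ => (∑ j : ZMod N, ‖Φ j‖) * Real.exp (-(n : ℝ) * t)) := by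
      apply Summable.mul_left
      have h2 : (fun n : ℕ => Real.exp (-(n : ℝ) * t)) = fun n : ℕ => (Real.exp (-t)) ^ n := by
        ext n
        rw [← Real.exp_nat_mul]
        ring_nf
      rw [h2]
      apply summable_geometric_of_lt_one (Real.exp_pos _).le
      rw [Real.exp_lt_one_iff]
      linarith
    refine Summable.of_norm_bounded h1 fun n => ?_
    rw [norm_mul, Complex.norm_real, Real.norm_of_nonneg (Real.exp_pos _).le]
    refine mul_le_mul_of_nonneg_right ?_ (Real.exp_pos _).le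
    exact Finset.single_le_sum (f := fun j : ZMod N => ‖Φ j‖) (fun _ _ => norm_nonneg _)
      (Finset.mem_univ _)
  have h := Nat.sumByResidueClasses hsumm N
  rw [hsumm.hasSum_iff, h]
  unfold FF num
  rw [Finset.sum_mul]
  refine Finset.sum_congr rfl fun j _ => ?_
  have h3 : ∀ m : ℕ, Φ ((j.val + N * m : ℕ) : ZMod N) *
      ((Real.exp (-((j.val + N * m : ℕ) : ℝ) * t) : ℝ) : ℂ) =
      (Φ j * ((Real.exp (-(j.val : ℝ) * t) : ℝ) : ℂ)) *
        (((Real.exp (-(N : ℝ) * t)) ^ m : ℝ) : ℂ) := by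
    intro m
    have h4 : ((j.val + N * m : ℕ) : ZMod N) = j := by simp
    rw [h4, mul_assoc, ← Complex.ofReal_mul, ← Real.exp_nat_mul, ← Real.exp_add]
    congr 3
    push_cast
    ring
  simp only [h3]
  rw [tsum_mul_left, ← Complex.ofReal_tsum, tsum_geometric_of_lt_one (Real.exp_pos _).le]
  rw [Real.exp_lt_one_iff]
  have := Npos (N := N)
  nlinarith

lemma num_bound (Φ : ZMod N → ℂ) (h0 : ∑ j, Φ j = 0) (h1 : ∑ j : ZMod N, Φ j * (j.val : ℂ) = 0)
    {t : ℝ} (ht : 0 < t) (ht1 : N * t ≤ 1) :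
    ‖num Φ t‖ ≤ (∑ j : ZMod N, ‖Φ j‖) * N ^ 2 * t ^ 2 := by
  have h2 : num Φ t = ∑ j : ZMod N, Φ j *
      ((Real.exp (-(j.val : ℝ) * t) - 1 - (-(j.val : ℝ) * t) : ℝ) : ℂ) := by
    have h3 : ∑ j : ZMod N, Φ j * ((Real.exp (-(j.val : ℝ) * t) - 1 - (-(j.val : ℝ) * t) : ℝ) : ℂ)
        = num Φ t - ∑ j, Φ j + t * ∑ j : ZMod N, Φ j * (j.val : ℂ) := by
      unfold num
      rw [Finset.mul_sum, ← Finset.sum_sub_distrib, ← Finset.sum_add_distrib]
      refine Finset.sum_congr rfl fun j _ => ?_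
      push_cast
      ring
    rw [h3, h0, h1]
    ring
  rw [h2]
  refine (norm_sum_le _ _).trans ?_
  rw [Finset.sum_mul, Finset.sum_mul]
  refine Finset.sum_le_sum fun j _ => ?_
  rw [norm_mul, Complex.norm_real, mul_assoc]
  refine mul_le_mul_of_nonneg_left ?_ (norm_nonneg _)
  have hj : (j.val : ℝ) ≤ N := by exact_mod_cast (ZMod.val_lt j).le
  have hj0 : (0 : ℝ) ≤ j.val := by positivity
  have h4 : |(-(j.val : ℝ) * t)| ≤ 1 := by
    rw [neg_mul, abs_neg, abs_of_nonneg (by positivity)]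
    nlinarith
  have h5 := Real.abs_exp_sub_one_sub_id_le h4
  rw [Real.norm_eq_abs]
  refine h5.trans ?_
  rw [neg_mul, neg_sq, mul_pow]
  exact mul_le_mul_of_nonneg_right (pow_le_pow_left₀ hj0 hj 2) (by positivity)

lemma den_bound {t : ℝ} (ht : 0 < t) (ht1 : N * t ≤ 1 / 2) :
    N * t / 2 ≤ 1 - Real.exp (-(N : ℝ) * t) := by
  have hN := Npos (N := N)
  have h4 : |(-(N : ℝ) * t)| ≤ 1 := by
    rw [neg_mul, abs_neg, abs_of_nonneg (by positivity)]
    linarith
  have h5 := Real.abs_exp_sub_one_sub_id_le h4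
  rw [abs_le] at h5
  have h6 : (N * t) ^ 2 ≤ N * t / 2 := by
    have : 0 < N * t := by positivity
    nlinarith
  have h7 : (-(N : ℝ) * t) ^ 2 = (N * t) ^ 2 := by ring
  rw [h7] at h5
  linarith [h5.2]

lemma FF_bound_zero (Φ : ZMod N → ℂ) (h0 : ∑ j, Φ j = 0)
    (h1 : ∑ j : ZMod N, Φ j * (j.val : ℂ) = 0) :
    (FF Φ) =O[𝓝[>] (0 : ℝ)] (fun t : ℝ => t ^ (-(-1 : ℝ))) := by
  have hN := Npos (N := N)
  refine IsBigO.of_bound (2 * (∑ j : ZMod N, ‖Φ j‖) * N) ?_
  have hmem : Set.Ioo (0 : ℝ) (1 / (2 * N)) ∈ 𝓝[>] (0 : ℝ) :=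
    Ioo_mem_nhdsGT (by positivity)
  filter_upwards [hmem] with t ht
  obtain ⟨ht0, ht2⟩ := ht
  have ht3 : N * t ≤ 1 / 2 := by
    have : t * (2 * N) < 1 := by rwa [lt_div_iff₀ (by positivity)] at ht2
    linarith
  have hn := num_bound Φ h0 h1 ht0 (by linarith)
  have hd := den_bound (N := N) ht0 ht3
  have hd0 : 0 < N * t / 2 := by positivity
  unfold FF
  rw [norm_mul, Complex.norm_real, norm_inv, Real.norm_of_nonneg (by linarith), neg_neg,
    Real.rpow_one, Real.norm_of_nonneg ht0.le]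
  have h5 : (1 - Real.exp (-(N : ℝ) * t))⁻¹ ≤ (N * t / 2)⁻¹ := inv_anti₀ hd0 hd
  calc ‖num Φ t‖ * (1 - Real.exp (-(N : ℝ) * t))⁻¹
      ≤ ((∑ j : ZMod N, ‖Φ j‖) * N ^ 2 * t ^ 2) * (N * t / 2)⁻¹ := by
        refine mul_le_mul hn h5 ?_ (by positivity)
        rw [inv_nonneg]
        linarith
    _ = _ := by
        field_simp

lemma FF_bound_top (Φ : ZMod N → ℂ) (hΦ0 : Φ 0 = 0) :
    (FF Φ) =O[atTop] (fun t : ℝ => Real.exp (-1 * t)) := by
  have hN := None_le (N := N)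
  refine IsBigO.of_bound ((∑ j : ZMod N, ‖Φ j‖) * (1 - Real.exp (-1))⁻¹) ?_
  filter_upwards [eventually_ge_atTop (1 : ℝ)] with t ht
  have hnum : ‖num Φ t‖ ≤ (∑ j : ZMod N, ‖Φ j‖) * Real.exp (-1 * t) := by
    unfold num
    refine (norm_sum_le _ _).trans ?_
    rw [Finset.sum_mul]
    refine Finset.sum_le_sum fun j _ => ?_
    rw [norm_mul, Complex.norm_real, Real.norm_of_nonneg (Real.exp_pos _).le]
    by_cases hj : j = 0
    · rw [hj, hΦ0]
      simp
    · refine mul_le_mul_of_nonneg_left ?_ (norm_nonneg _)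
      rw [Real.exp_le_exp]
      have : (1 : ℝ) ≤ j.val := by
        have : 0 < j.val := by
          rw [Nat.pos_iff_ne_zero, Ne, ZMod.val_eq_zero]
          exact hj
        exact_mod_cast this
      nlinarith
  have he : Real.exp (-1) < 1 := by rw [Real.exp_lt_one_iff]; norm_num
  have hden : 1 - Real.exp (-1) ≤ 1 - Real.exp (-(N : ℝ) * t) := by
    have : Real.exp (-(N : ℝ) * t) ≤ Real.exp (-1) := by
      rw [Real.exp_le_exp]
      nlinarith
    linarith
  unfold FF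
  rw [norm_mul, Complex.norm_real, norm_inv, Real.norm_of_nonneg (by linarith),
    Real.norm_of_nonneg (Real.exp_pos _).le]
  have h5 : (1 - Real.exp (-(N : ℝ) * t))⁻¹ ≤ (1 - Real.exp (-1))⁻¹ :=
    inv_anti₀ (by linarith) hden
  calc ‖num Φ t‖ * (1 - Real.exp (-(N : ℝ) * t))⁻¹
      ≤ ((∑ j : ZMod N, ‖Φ j‖) * Real.exp (-1 * t)) * (1 - Real.exp (-1))⁻¹ := by
        refine mul_le_mul hnum h5 ?_ (by positivity)
        rw [inv_nonneg]
        linarith
    _ = _ := by ring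

lemma continuousOn_FF (Φ : ZMod N → ℂ) : ContinuousOn (FF Φ) (Set.Ioi 0) := by
  unfold FF num
  refine ContinuousOn.mul ?_ ?_
  · fun_prop
  · refine Complex.continuous_ofReal.comp_continuousOn ?_
    refine ContinuousOn.inv₀ (by fun_prop) ?_
    intro t ht
    have hN := Npos (N := N)
    have ht' : 0 < t := ht
    have : Real.exp (-(N : ℝ) * t) < 1 := by
      rw [Real.exp_lt_one_iff]
      nlinarith
    linarith

/-- If `∑ Φ j = 0` and `∑ j Φ j = 0` then `L(Φ, 0) = 0`. -/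
theorem LFunction_zero (Φ : ZMod N → ℂ) (hΦ0 : Φ 0 = 0) (h0 : ∑ j, Φ j = 0)
    (h1 : ∑ j : ZMod N, Φ j * (j.val : ℂ) = 0) : ZMod.LFunction Φ 0 = 0 := by
  set U : Set ℂ := {s : ℂ | -1 < s.re} with hU
  have hUo : IsOpen U := isOpen_lt continuous_const Complex.continuous_re
  have hUc : IsPreconnected U := (convex_halfSpace_re_gt (-1)).isPreconnected
  have hdiff : DifferentiableOn ℂ (fun s => (Complex.Gamma s)⁻¹ * mellin (FF Φ) s) U := by
    intro s hs
    refine DifferentiableAt.differentiableWithinAt ?_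
    refine DifferentiableAt.mul (Complex.differentiable_one_div_Gamma s) ?_
    exact mellin_differentiableAt_of_isBigO_rpow_exp zero_lt_one
      ((continuousOn_FF Φ).locallyIntegrableOn measurableSet_Ioi) (FF_bound_top Φ hΦ0)
      (FF_bound_zero Φ h0 h1) hs
  have hL : DifferentiableOn ℂ (ZMod.LFunction Φ) U :=
    (ZMod.differentiable_LFunction_of_sum_zero h0).differentiableOn
  have heq : ∀ s : ℂ, 1 < s.re → ZMod.LFunction Φ s = (Complex.Gamma s)⁻¹ * mellin (FF Φ) s := by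
    intro s hs
    have hs0 : 0 < s.re := by linarith
    have hsumm : Summable fun i : ℕ => ‖Φ (i : ZMod N)‖ / ((i : ℝ)) ^ s.re := by
      have h2 := ZMod.LSeriesSummable_of_one_lt_re Φ hs
      have h3 := h2.norm
      refine h3.congr fun n => ?_
      rw [LSeries.norm_term_eq]
      split_ifs with hn
      · subst hn
        simp [hΦ0]
      · rfl
    have h2 := hasSum_mellin (a := fun n : ℕ => Φ n) (p := fun n : ℕ => (n : ℝ)) (F := FF Φ)
      (s := s) (fun n => by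
        rcases Nat.eq_zero_or_pos n with rfl | hn
        · left; simpa using hΦ0
        · right; exact_mod_cast hn) hs0
      (fun t ht => by simpa using hasSum_FF Φ ht) hsumm
    have hG : Complex.Gamma s ≠ 0 := Complex.Gamma_ne_zero_of_re_pos hs0
    rw [← h2.tsum_eq, ZMod.LFunction_eq_LSeries Φ hs, LSeries, ← tsum_mul_left]
    congr 1
    ext n
    rcases Nat.eq_zero_or_pos n with rfl | hn
    · simp [hΦ0]
    · rw [LSeries.term_of_ne_zero hn.ne']
      push_cast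
      field_simp
  have hmain : Set.EqOn (ZMod.LFunction Φ) (fun s => (Complex.Gamma s)⁻¹ * mellin (FF Φ) s) U := by
    refine (hL.analyticOnNhd hUo).eqOn_of_preconnected_of_eventuallyEq
      (hdiff.analyticOnNhd hUo) hUc (z₀ := 2) ?_ ?_
    · rw [hU]; norm_num
    · have : {s : ℂ | 1 < s.re} ∈ 𝓝 (2 : ℂ) :=
        (isOpen_lt continuous_const Complex.continuous_re).mem_nhds (by norm_num)
      filter_upwards [this] with s hs
      exact heq s hs
  have h0U : (0 : ℂ) ∈ U := by rw [hU]; norm_num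
  have := hmain h0U
  simpa [Complex.Gamma_zero] using this

end Pool.Agent.Work.MP_a01b15_nt
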