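import Mathlib
import Pool.Agent.Work.MP_a01b15_nt.LValue

set_option autoImplicit false

namespace Pool.Agent.Work.MP_a01b15_nt

open Complex Finset ZMod

variable {N : ℕ} [NeZero N]

lemma dft_unit (χ : DirichletCharacter ℂ N) (k : (ZMod N)ˣ) :
    𝓕 (χ : ZMod N → ℂ) (k : ZMod N) = χ⁻¹ (k : ZMod N) * 𝓕 (χ : ZMod N → ℂ) 1 := by
  rw [ZMod.dft_apply, ZMod.dft_apply, Finset.mul_sum]
  refine Fintype.sum_bijective (fun j => (k : ZMod N) * j) (Units.mulLeft_bijective k) _ _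
    fun j => ?_
  have h1 : χ⁻¹ (k : ZMod N) * χ ((k : ZMod N) * j) = χ j := by
    rw [map_mul, ← mul_assoc]
    have : χ⁻¹ (k : ZMod N) * χ (k : ZMod N) = 1 := by
      rw [← MulChar.mul_apply, inv_mul_cancel, MulChar.one_apply k.isUnit]
    rw [this, one_mul]
  simp only [smul_eq_mul, mul_one]
  rw [mul_comm j, ← h1]
  ring

/-- An odd character whose Fourier transform is supported on the units has
`∑ χ(j) j ≠ 0`. -/
theorem sum_val_ne_zero (χ : DirichletCharacter ℂ N) (hodd : χ (-1) = -1)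
    (hsupp : ∀ k : ZMod N, ¬ IsUnit k → 𝓕 (χ : ZMod N → ℂ) k = 0) :
    ∑ j : ZMod N, χ j * (j.val : ℂ) ≠ 0 := by
  intro h1
  have hχ1 : χ ≠ 1 := by
    rintro rfl
    rw [MulChar.one_apply isUnit_one.neg] at hodd
    norm_num at hodd
  have hN1 : N ≠ 1 := by
    rintro rfl
    apply hχ1
    exact Subsingleton.elim _ _
  have h00 : χ 0 = 0 := by
    apply MulChar.map_nonunit
    have : Nontrivial (ZMod N) := by
      have : Fact (1 < N) := ⟨by
        have := Nat.pos_of_ne_zero (NeZero.ne N)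
        omega⟩
      infer_instance
    exact not_isUnit_zero
  have h0 : ∑ j, χ j = 0 := MulChar.sum_eq_zero_of_ne_one hχ1
  have hL0 := LFunction_zero (χ : ZMod N → ℂ) h00 h0 h1
  have hfe := ZMod.LFunction_one_sub (χ : ZMod N → ℂ) (s := 1)
    (by
      intro n h
      have h2 := congrArg Complex.re h
      simp at h2
      have : (0 : ℝ) ≤ n := by positivity
      linarith) (Or.inl h00)
  rw [sub_self, hL0] at hfe
  have hneg : (fun x => χ (-x)) = fun x => (-1 : ℂ) * χ x := by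
    ext x
    have : -x = (-1) * x := by ring
    rw [this, map_mul, hodd]
  rw [hneg, ZMod.dft_const_mul] at hfe
  have hdft : 𝓕 (χ : ZMod N → ℂ) = fun k => 𝓕 (χ : ZMod N → ℂ) 1 * χ⁻¹ k := by
    ext k
    by_cases hk : IsUnit k
    · obtain ⟨u, rfl⟩ := hk
      rw [dft_unit, mul_comm]
    · rw [hsupp k hk, MulChar.map_nonunit _ hk, mul_zero]
  set c := 𝓕 (χ : ZMod N → ℂ) 1 with hc
  have hc0 : c ≠ 0 := by
    intro h
    rw [h] at hdft
    have h2 : 𝓕 (χ : ZMod N → ℂ) = 0 := by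
      rw [hdft]; ext k; simp
    have h4 : (χ : ZMod N → ℂ) = 0 := (ZMod.dft (N := N) (E := ℂ)).map_eq_zero_iff.mp h2
    have h3 := congrFun h4 1
    simp at h3
  have hlin : ∀ (b : ℂ) (Φ : ZMod N → ℂ) (s : ℂ),
      ZMod.LFunction (fun k => b * Φ k) s = b * ZMod.LFunction Φ s := by
    intro b Φ s
    simp only [ZMod.LFunction, mul_assoc, ← Finset.mul_sum]
    ring
  rw [hlin] at hfe
  have hLc : ZMod.LFunction (𝓕 (χ : ZMod N → ℂ)) 1 = c * DirichletCharacter.LFunction χ⁻¹ 1 := by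
    rw [hdft, hlin]
    rfl
  have he1 : cexp (Real.pi * I * 1 / 2) = I := by
    have : (Real.pi * I * 1 / 2 : ℂ) = Real.pi / 2 * I := by ring
    rw [this, Complex.exp_pi_div_two_mul_I]
  have he2 : cexp (-Real.pi * I * 1 / 2) = -I := by
    have : (-Real.pi * I * 1 / 2 : ℂ) = -Real.pi / 2 * I := by ring
    rw [this, Complex.exp_neg_pi_div_two_mul_I]
  rw [he1, he2, hLc] at hfe
  have hne : DirichletCharacter.LFunction χ⁻¹ 1 ≠ 0 :=
    DirichletCharacter.LFunction_apply_one_ne_zero (by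
      intro h
      apply hχ1
      rw [← inv_inv χ, h, inv_one])
  have hN0 : ((N : ℂ) ^ (0 : ℂ)) ≠ 0 := by
    rw [Complex.cpow_zero]
    exact one_ne_zero
  have h2pi : ((2 * Real.pi : ℂ) ^ (-(1 : ℂ))) ≠ 0 := by
    rw [Complex.cpow_neg_one]
    apply inv_ne_zero
    exact mul_ne_zero two_ne_zero (by exact_mod_cast Real.pi_ne_zero)
  have hG : Complex.Gamma 1 ≠ 0 := by rw [Complex.Gamma_one]; exact one_ne_zero
  have hsum : (I * (c * DirichletCharacter.LFunction χ⁻¹ 1) +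
      -I * (-1 * (c * DirichletCharacter.LFunction χ⁻¹ 1))) ≠ 0 := by
    have : (I * (c * DirichletCharacter.LFunction χ⁻¹ 1) +
      -I * (-1 * (c * DirichletCharacter.LFunction χ⁻¹ 1))) =
      2 * I * (c * DirichletCharacter.LFunction χ⁻¹ 1) := by ring
    rw [this]
    exact mul_ne_zero (mul_ne_zero two_ne_zero I_ne_zero) (mul_ne_zero hc0 hne)
  exact mul_ne_zero (mul_ne_zero (mul_ne_zero hN0 h2pi) hG) hsum hfe.symm

end Pool.Agent.Work.MP_a01b15_nt
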