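import Mathlib
import Pool.Agent.Work.MP_a01b15_nt.Contra
import Pool.Agent.Work.MP_a01b15_nt.Comb

set_option autoImplicit false

namespace Pool.Agent.Work.MP_a01b15_nt

open Complex Finset ZMod

section

variable (l : ℕ) [Fact l.Prime]

instance : NeZero (4 * l) := ⟨by
  have := (Fact.out : l.Prime).pos
  omega⟩

/-- The complex-valued quadratic character modulo `4`. -/
noncomputable def chi4 : DirichletCharacter ℂ 4 := ZMod.χ₄.ringHomComp (Int.castRingHom ℂ)

/-- The product character modulo `4 l`. -/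
noncomputable def chi (ψ : DirichletCharacter ℂ l) : DirichletCharacter ℂ (4 * l) :=
  DirichletCharacter.changeLevel (Dvd.intro l rfl) chi4 *
    DirichletCharacter.changeLevel (Dvd.intro_left 4 rfl) ψ

omit [Fact l.Prime] in
lemma isUnit_iff_coprime' (x : ℕ) : IsUnit ((x : ZMod (4 * l))) ↔ Nat.Coprime x (4 * l) :=
  ZMod.isUnit_iff_coprime x (4 * l)

lemma chi_apply (ψ : DirichletCharacter ℂ l) (x : ℕ) :
    chi l ψ (x : ZMod (4 * l)) = chi4 (x : ZMod 4) * ψ (x : ZMod l) := by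
  unfold chi
  rw [MulChar.mul_apply]
  by_cases hx : IsUnit ((x : ZMod (4 * l)))
  · obtain ⟨u, hu⟩ := hx
    rw [← hu, DirichletCharacter.changeLevel_eq_cast_of_dvd,
      DirichletCharacter.changeLevel_eq_cast_of_dvd, hu,
      ZMod.cast_natCast (Dvd.intro l rfl), ZMod.cast_natCast (Dvd.intro_left 4 rfl)]
  · rw [MulChar.map_nonunit _ hx, zero_mul]
    rw [isUnit_iff_coprime', Nat.coprime_mul_iff_right, not_and_or] at hx
    rcases hx with hx | hx
    · rw [MulChar.map_nonunit chi4, zero_mul]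
      rwa [ZMod.isUnit_iff_coprime]
    · rw [MulChar.map_nonunit ψ, mul_zero]
      rwa [ZMod.isUnit_iff_coprime]

lemma chi4_natCast (x : ℕ) : chi4 (x : ZMod 4) = ((ZMod.χ₄ (x : ZMod 4) : ℤ) : ℂ) := rfl

lemma chi4_add_two (x : ZMod 4) : chi4 (x + 2) = - chi4 x := by
  have h : ZMod.χ₄ (x + 2) = - ZMod.χ₄ x := by revert x; decide
  unfold chi4
  rw [MulChar.ringHomComp_apply, MulChar.ringHomComp_apply, h, map_neg]

lemma chi_add (hl : l % 2 = 1) (ψ : DirichletCharacter ℂ l) (x : ZMod (4 * l)) :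
    chi l ψ (x + (2 * l : ℕ)) = - chi l ψ x := by
  obtain ⟨n, rfl⟩ := ZMod.natCast_zmod_surjective x
  rw [← Nat.cast_add, chi_apply, chi_apply]
  have h1 : ((n + 2 * l : ℕ) : ZMod l) = (n : ZMod l) := by simp
  have h2 : ((n + 2 * l : ℕ) : ZMod 4) = (n : ZMod 4) + 2 := by
    obtain ⟨k, hk⟩ : ∃ k, l = 2 * k + 1 := ⟨l / 2, by omega⟩
    have h3 : ((4 : ℕ) : ZMod 4) = 0 := by decide
    push_cast
    rw [hk]
    push_cast
    have h4 : (4 : ZMod 4) = 0 := by decide
    linear_combination (k : ZMod 4) * h4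
  rw [h1, h2, chi4_add_two]
  ring

lemma chi_neg_one (ψ : DirichletCharacter ℂ l) (hψ : ψ (-1) = 1) : chi l ψ (-1) = -1 := by
  have hl := (Fact.out : l.Prime).pos
  have h : (-1 : ZMod (4 * l)) = ((4 * l - 1 : ℕ) : ZMod (4 * l)) := by
    rw [Nat.cast_sub (by omega)]
    simp
  rw [h, chi_apply]
  have h1 : ((4 * l - 1 : ℕ) : ZMod 4) = -1 := by
    rw [Nat.cast_sub (by omega)]
    push_cast
    have h4 : (4 : ZMod 4) = 0 := by decide
    linear_combination (l : ZMod 4) * h4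
  have h2 : ((4 * l - 1 : ℕ) : ZMod l) = -1 := by
    rw [Nat.cast_sub (by omega)]
    simp
  rw [h1, h2, hψ, mul_one]
  have h3 : ZMod.χ₄ (-1 : ZMod 4) = -1 := by decide
  unfold chi4
  rw [MulChar.ringHomComp_apply, h3]
  simp

/-- the Fourier transform of `chi` is supported on units -/
lemma chi_dft (hl : l % 2 = 1) (ψ : DirichletCharacter ℂ l) (hψ1 : ψ ≠ 1) (k : ZMod (4 * l))
    (hk : ¬ IsUnit k) : 𝓕 (chi l ψ : ZMod (4 * l) → ℂ) k = 0 := by
  have hlp : l.Prime := Fact.out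
  obtain ⟨n, rfl⟩ := ZMod.natCast_zmod_surjective k
  rw [isUnit_iff_coprime', Nat.coprime_mul_iff_right, not_and_or] at hk
  rcases hk with hk | hk
  · -- `n` is even
    have hn : 2 ∣ n := by
      by_contra h
      apply hk
      have : Nat.Coprime n (2 ^ 2) := Nat.Coprime.pow_right 2
        ((Nat.Prime.coprime_iff_not_dvd Nat.prime_two).mpr h).symm
      exact this
    obtain ⟨m, rfl⟩ := hn
    have h1 : 𝓕 (chi l ψ : ZMod (4 * l) → ℂ) ((2 * m : ℕ) : ZMod (4 * l)) =
        - 𝓕 (chi l ψ : ZMod (4 * l) → ℂ) ((2 * m : ℕ) : ZMod (4 * l)) := by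
      conv_lhs => rw [ZMod.dft_apply]
      rw [ZMod.dft_apply, ← Finset.sum_neg_distrib]
      refine Fintype.sum_bijective (fun j => j - ((2 * l : ℕ) : ZMod (4 * l)))
        (Equiv.subRight _).bijective _ _ fun j => ?_
      have h2 : chi l ψ j = - chi l ψ (j - ((2 * l : ℕ) : ZMod (4 * l))) := by
        rw [← chi_add l hl, sub_add_cancel]
      rw [h2]
      have h3 : (j * ((2 * m : ℕ) : ZMod (4 * l))) =
          (j - ((2 * l : ℕ) : ZMod (4 * l))) * ((2 * m : ℕ) : ZMod (4 * l)) := by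
        have h4 : ((4 * l : ℕ) : ZMod (4 * l)) = 0 := ZMod.natCast_self _
        push_cast at h4 ⊢
        linear_combination (m : ZMod (4 * l)) * h4
      rw [h3, smul_eq_mul, smul_eq_mul, mul_neg]
    have h5 : (2 : ℂ) * 𝓕 (chi l ψ : ZMod (4 * l) → ℂ) ((2 * m : ℕ) : ZMod (4 * l)) = 0 := by
      linear_combination h1
    exact (mul_eq_zero.mp h5).resolve_left two_ne_zero
  · -- `l ∣ n`
    have hn : l ∣ n := by
      by_contra h
      exact hk ((Nat.Prime.coprime_iff_not_dvd hlp).mpr h).symm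
    obtain ⟨m, rfl⟩ := hn
    -- a unit `u ≡ 1 mod 4` with `ψ u ≠ 1`
    obtain ⟨w, hw⟩ := (MulChar.ne_one_iff (χ := ψ)).mp hψ1
    have hcop : Nat.Coprime 4 l := by
      have : Nat.Coprime (2 ^ 2) l := Nat.Coprime.pow_left 2
        ((Nat.coprime_primes Nat.prime_two hlp).mpr (by rintro rfl; omega))
      exact this
    obtain ⟨u, hu4, hul⟩ := Nat.chineseRemainder hcop 1 (w : ZMod l).val
    have hul' : (u : ZMod l) = w := by
      rw [(ZMod.natCast_eq_natCast_iff _ _ _).mpr hul, ZMod.natCast_zmod_val]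
    have hu4' : (u : ZMod 4) = 1 := by
      have := (ZMod.natCast_eq_natCast_iff _ _ _).mpr hu4
      simpa using this
    have hchiu : chi l ψ (u : ZMod (4 * l)) = ψ w := by
      rw [chi_apply, hul', hu4', map_one, one_mul]
    have huu : IsUnit (u : ZMod (4 * l)) := by
      rw [isUnit_iff_coprime', Nat.coprime_mul_iff_right, ← ZMod.isUnit_iff_coprime,
        ← ZMod.isUnit_iff_coprime, hul', hu4']
      exact ⟨isUnit_one, w.isUnit⟩
    obtain ⟨u', hu'⟩ := huu
    have hul4 : (u : ZMod (4 * l)) * (l : ZMod (4 * l)) = l := by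
      have hu : u % 4 = 1 := hu4
      have hq : u = 4 * (u / 4) + 1 := by omega
      have h4 : ((4 * l : ℕ) : ZMod (4 * l)) = 0 := ZMod.natCast_self _
      have h6 : (u : ZMod (4 * l)) = 4 * ((u / 4 : ℕ) : ZMod (4 * l)) + 1 := by
        conv_lhs => rw [hq]
        push_cast
        ring
      rw [h6]
      push_cast at h4 ⊢
      linear_combination ((u / 4 : ℕ) : ZMod (4 * l)) * h4
    have h1 : 𝓕 (chi l ψ : ZMod (4 * l) → ℂ) ((l * m : ℕ) : ZMod (4 * l)) =
        ψ w * 𝓕 (chi l ψ : ZMod (4 * l) → ℂ) ((l * m : ℕ) : ZMod (4 * l)) := by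
      rw [ZMod.dft_apply, Finset.mul_sum]
      symm
      refine Fintype.sum_bijective (fun j => (u' : ZMod (4 * l)) * j) (Units.mulLeft_bijective u')
        _ _ fun j => ?_
      have h3 : ((u' : ZMod (4 * l)) * j) * ((l * m : ℕ) : ZMod (4 * l)) =
          j * ((l * m : ℕ) : ZMod (4 * l)) := by
        rw [hu']
        push_cast
        linear_combination (j * m) * hul4
      rw [h3, map_mul, hu', hchiu, smul_eq_mul, smul_eq_mul]
      ring
    have h5 : (1 - ψ w) * 𝓕 (chi l ψ : ZMod (4 * l) → ℂ) ((l * m : ℕ) : ZMod (4 * l)) = 0 := by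
      linear_combination h1
    rcases mul_eq_zero.mp h5 with h | h
    · exact absurd (sub_eq_zero.mp h).symm hw
    · exact h

end

end Pool.Agent.Work.MP_a01b15_nt
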