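import Mathlib

set_option autoImplicit false

namespace Pool.Agent.Work.MP_a01b15_nt

open Finset

section

variable {K : Type*} [Field K] [Fintype K] {L : Type*} [Field L]

/-- the number of solutions of `z ^ m = w` in terms of a character of exact order `m` -/
lemma pow_count [DecidableEq K] (Θ : MulChar K L) {m : ℕ} (hm : orderOf Θ = m) (w : K)
    (hw : w ≠ 0) : (((univ.filter fun z : K => z ^ m = w).card : ℕ) : L) =
      ∑ j ∈ range m, (Θ w) ^ j := by
  have hmdvd : m ∣ Fintype.card K - 1 := hm ▸ MulChar.orderOf_dvd_card_sub_one K Θ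
  have hK := Fintype.one_lt_card (α := K)
  have hm0 : 0 < m := Nat.pos_of_dvd_of_pos hmdvd (by omega)
  obtain ⟨g, hg⟩ := IsCyclic.exists_generator (α := Kˣ)
  have hgo : orderOf g = Fintype.card K - 1 := by
    rw [orderOf_eq_card_of_forall_mem_zpowers hg, Nat.card_eq_fintype_card, Fintype.card_units]
  have hpow : ∀ k : ℕ, Θ ^ k = 1 ↔ (Θ g) ^ k = 1 := by
    intro k
    rw [MulChar.eq_iff hg, MulChar.pow_apply_coe, MulChar.one_apply_coe]
  have hζ : IsPrimitiveRoot (Θ g) m := by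
    rw [IsPrimitiveRoot.iff_orderOf, ← hm, orderOf_eq_orderOf_iff]
    intro k
    exact (hpow k).symm
  -- primitive `m`-th root of unity in `K`
  obtain ⟨c, hc⟩ := hmdvd
  have hc0 : c ≠ 0 := by rintro rfl; omega
  have hprim : IsPrimitiveRoot ((g : K) ^ c) m := by
    have h1 : IsPrimitiveRoot (g : K) (c * m) := by
      rw [IsPrimitiveRoot.coe_units_iff, mul_comm, ← hc, ← hgo]
      exact IsPrimitiveRoot.orderOf g
    exact h1.pow (by positivity) rfl
  have hcard1 : (univ.filter fun z : K => z ^ m = 1).card = m := by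
    have h1 : (Polynomial.nthRootsFinset m (1 : K)).card = m := hprim.card_nthRootsFinset
    have h2 : (univ.filter fun z : K => z ^ m = 1) = Polynomial.nthRootsFinset m (1 : K) := by
      ext z
      rw [Polynomial.mem_nthRootsFinset hm0]
      simp
    rw [h2, h1]
  obtain ⟨w', rfl⟩ : ∃ w' : Kˣ, (w' : K) = w := ⟨Units.mk0 w hw, rfl⟩
  obtain ⟨a, rfl⟩ : ∃ a : ℕ, g ^ a = w' := by
    have := hg w'
    rw [← mem_powers_iff_mem_zpowers] at this
    exact this
  have hΘ : Θ ((g ^ a : Kˣ) : K) = (Θ g) ^ a := by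
    rw [Units.val_pow_eq_pow_val, map_pow]
  rw [hΘ]
  by_cases hd : m ∣ a
  · obtain ⟨b, rfl⟩ := hd
    have h1 : (Θ g) ^ (m * b) = 1 := by rw [pow_mul, hζ.pow_eq_one, one_pow]
    rw [h1]
    simp only [one_pow, sum_const, card_range, nsmul_eq_mul, mul_one]
    congr 1
    refine Eq.trans ?_ hcard1
    refine Finset.card_bij (fun z _ => z * ((g ^ b : Kˣ) : K)⁻¹) ?_ ?_ ?_
    · intro z hz
      rw [Finset.mem_filter] at hz ⊢
      refine ⟨Finset.mem_univ _, ?_⟩
      rw [mul_pow, hz.2, inv_pow, ← Units.val_pow_eq_pow_val, ← pow_mul, mul_comm b m]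
      exact mul_inv_cancel₀ (Units.ne_zero _)
    · intro z1 _ z2 _ h
      exact mul_right_cancel₀ (inv_ne_zero (Units.ne_zero _)) h
    · intro z hz
      rw [Finset.mem_filter] at hz
      refine ⟨z * ((g ^ b : Kˣ) : K), ?_, ?_⟩
      · rw [Finset.mem_filter]
        refine ⟨Finset.mem_univ _, ?_⟩
        rw [mul_pow, hz.2, one_mul, ← Units.val_pow_eq_pow_val, ← pow_mul, mul_comm b m]
      · rw [mul_assoc, mul_inv_cancel₀ (Units.ne_zero _), mul_one]
  · have h1 : (Θ g) ^ a ≠ 1 := by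
      rw [Ne, hζ.pow_eq_one_iff_dvd]
      exact hd
    have h2 : ((Θ g) ^ a) ^ m = 1 := by
      rw [← pow_mul, mul_comm, pow_mul, hζ.pow_eq_one, one_pow]
    have h3 : ∑ j ∈ range m, ((Θ g) ^ a) ^ j = 0 := by
      have h4 := mul_neg_geom_sum ((Θ g) ^ a) m
      rw [h2, sub_self] at h4
      exact (mul_eq_zero.mp h4).resolve_left (sub_ne_zero.mpr (Ne.symm h1))
    rw [h3]
    have h5 : (univ.filter fun z : K => z ^ m = ((g ^ a : Kˣ) : K)) = ∅ := by
      rw [Finset.filter_eq_empty_iff]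
      intro z _ hz
      apply h1
      rw [← hΘ, ← hz, map_pow]
      by_cases hz0 : z = 0
      · exfalso
        rw [hz0, zero_pow hm0.ne'] at hz
        exact Units.ne_zero _ hz.symm
      · obtain ⟨z', rfl⟩ : ∃ z' : Kˣ, (z' : K) = z := ⟨Units.mk0 z hz0, rfl⟩
        rw [← MulChar.pow_apply_coe, ← hm, pow_orderOf_eq_one, MulChar.one_apply_coe]
    rw [h5]
    simp

/-- summing over `m`-th powers -/
lemma sum_pow_eq (Θ : MulChar K L) {m : ℕ} (hm : orderOf Θ = m) (f : K → L) (f0 : f 0 = 0) :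
    ∑ z, f (z ^ m) = ∑ z, f z * ∑ j ∈ range m, (Θ z) ^ j := by
  classical
  rw [← Finset.sum_fiberwise (s := univ) (g := fun z : K => z ^ m)]
  refine Finset.sum_congr rfl fun w _ => ?_
  have h1 : ∀ z ∈ univ.filter (fun z : K => z ^ m = w), f (z ^ m) = f w := by
    intro z hz
    rw [(Finset.mem_filter.mp hz).2]
  rw [Finset.sum_congr rfl h1, Finset.sum_const, nsmul_eq_mul]
  by_cases hw : w = 0
  · rw [hw, f0, mul_zero, zero_mul]
  · rw [pow_count Θ hm w hw, mul_comm]

/-- a character of exact order two is the quadratic character -/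
lemma eq_quadraticChar [DecidableEq K] [CharZero L] (φ : MulChar K L)
    (hφ : orderOf φ = 2) (x : K) : φ x = ((quadraticChar K x : ℤ) : L) := by
  have hsq : ∀ y : K, y ≠ 0 → (φ y) ^ 2 = 1 := by
    intro y hy
    obtain ⟨y', rfl⟩ : ∃ y' : Kˣ, (y' : K) = y := ⟨Units.mk0 y hy, rfl⟩
    rw [← MulChar.pow_apply_coe, ← hφ, pow_orderOf_eq_one, MulChar.one_apply_coe]
  have hne : φ ≠ 1 := by
    intro h
    rw [h, orderOf_one] at hφ
    omega
  have hsquare : ∀ y : K, y ≠ 0 → IsSquare y → φ y = 1 := by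
    rintro y hy ⟨z, rfl⟩
    have hz : z ≠ 0 := by rintro rfl; simp at hy
    rw [map_mul, ← sq, hsq z hz]
  obtain ⟨u, hu⟩ := MulChar.ne_one_iff.mp hne
  have hu1 : φ u = -1 := by
    have := hsq u u.ne_zero
    rcases sq_eq_one_iff.mp this with h | h
    · exact absurd h hu
    · exact h
  have husq : ¬ IsSquare (u : K) := fun h => hu (hsquare _ u.ne_zero h)
  by_cases hx : x = 0
  · rw [hx, MulChar.map_zero, MulChar.map_zero, Int.cast_zero]
  · by_cases hs : IsSquare x
    · rw [hsquare x hx hs, (quadraticChar_one_iff_isSquare hx).mpr hs, Int.cast_one]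
    · have h1 : quadraticChar K x = -1 := by
        rw [quadraticChar_neg_one_iff_not_isSquare]
        exact hs
      have h2 : quadraticChar K (u : K) = -1 := by
        rw [quadraticChar_neg_one_iff_not_isSquare]
        exact husq
      have h3 : IsSquare (u * x : K) := by
        rw [← quadraticChar_one_iff_isSquare (mul_ne_zero u.ne_zero hx), map_mul, h1, h2]
        norm_num
      have h4 := hsquare _ (mul_ne_zero u.ne_zero hx) h3
      rw [map_mul, hu1] at h4
      rw [h1]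
      push_cast
      linear_combination -h4

/-- summing over squares -/
lemma sum_sq_eq [DecidableEq K] (hK : ringChar K ≠ 2) (f : K → L) :
    ∑ z, f (z ^ 2) = ∑ w, f w * (1 + ((quadraticChar K w : ℤ) : L)) := by
  rw [← Finset.sum_fiberwise (s := univ) (g := fun z : K => z ^ 2)]
  refine Finset.sum_congr rfl fun w _ => ?_
  have h1 : ∀ z ∈ univ.filter (fun z : K => z ^ 2 = w), f (z ^ 2) = f w := by
    intro z hz
    rw [(Finset.mem_filter.mp hz).2]
  rw [Finset.sum_congr rfl h1, Finset.sum_const, nsmul_eq_mul, mul_comm]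
  congr 1
  have h2 := quadraticChar_card_sqrts hK w
  have h3 : (univ.filter (fun z : K => z ^ 2 = w)) = {x : K | x ^ 2 = w}.toFinset := by
    ext z; simp
  rw [h3]
  have h4 := congrArg (Int.cast : ℤ → L) h2
  push_cast at h4
  rw [h4]
  ring

/-- `T χ k = ∑ χ(w) k(w)` -/
def TT (χ : MulChar K L) (k : K → L) : L := ∑ w, χ w * k w

lemma coprime_aux {l e : ℕ} (hl : l.Prime) (h2 : e % 2 = 1) (h : ¬ l ∣ e) :
    Nat.Coprime (4 * l) e := by
  rw [Nat.coprime_mul_iff_left]
  refine ⟨?_, (Nat.Prime.coprime_iff_not_dvd hl).mpr h⟩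
  have : Nat.Coprime (2 ^ 2) e := Nat.Coprime.pow_left 2
    ((Nat.Prime.coprime_iff_not_dvd Nat.prime_two).mpr (by omega))
  exact this

/-- The basic identity: the difference of the sums over `l`-th powers and over all elements as a
sum of `2 (l - 1)` character sums with characters of exact order `4 l`. -/
lemma basic_identity [DecidableEq K] (hK : ringChar K ≠ 2) [CharZero L] {l : ℕ} (hl : l.Prime)
    (hl2 : l % 2 = 1) (χ : MulChar K L) (hχ : orderOf χ = 4 * l) (k : K → L) :
    ∑ z, (((quadraticChar K (z ^ l) : ℤ) : L) * k ((z ^ l) ^ 2) -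
      ((quadraticChar K z : ℤ) : L) * k (z ^ 2)) =
    ∑ j ∈ Finset.Ico 1 l, (TT (χ ^ ((1 + l) * j + l)) k + TT (χ ^ ((1 + l) * j + 3 * l)) k) := by
  have hl0 := hl.pos
  -- the quadratic character
  have hη : ∀ x : K, (χ ^ (2 * l)) x = ((quadraticChar K x : ℤ) : L) := by
    intro x
    apply eq_quadraticChar
    rw [orderOf_pow, hχ]
    have h1 : Nat.gcd (4 * l) (2 * l) = 2 * l :=
      Nat.gcd_eq_right ⟨2, by ring⟩
    rw [h1]
    exact Nat.div_eq_of_eq_mul_left (by omega) (by ring)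
  -- the character of order `l`
  have hΘ : orderOf (χ ^ (2 + 2 * l)) = l := by
    rw [orderOf_pow, hχ]
    obtain ⟨c, hc⟩ : ∃ c, l = 2 * c + 1 := ⟨l / 2, by omega⟩
    have h1 : Nat.gcd (4 * l) (2 + 2 * l) = 4 := by
      have h2 : 2 + 2 * l = 4 * (c + 1) := by omega
      rw [h2, Nat.gcd_mul_left]
      have h3 : Nat.gcd l (c + 1) = 1 := by
        have h4 : Nat.Coprime l (c + 1) := by
          have h5 : Nat.Coprime (2 * c + 1) (c + 1) := by
            have h6 : 2 * c + 1 = c + (c + 1) := by ring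
            rw [h6, Nat.coprime_add_self_left]
            exact (Nat.coprime_self_add_right.mpr (Nat.coprime_one_right c)) |>.symm.symm
          rw [hc]
          exact h5
        exact h4
      rw [h3]
    rw [h1]
    omega
  have h1 : ∑ z, ((quadraticChar K (z ^ l) : ℤ) : L) * k ((z ^ l) ^ 2) =
      ∑ z, (((quadraticChar K z : ℤ) : L) * k (z ^ 2)) *
        ∑ j ∈ range l, ((χ ^ (2 + 2 * l)) z) ^ j :=
    sum_pow_eq (χ ^ (2 + 2 * l)) hΘ (fun z => ((quadraticChar K z : ℤ) : L) * k (z ^ 2))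
      (by simp)
  rw [Finset.sum_sub_distrib, h1, ← Finset.sum_sub_distrib]
  have h2 : ∀ z : K, ((((quadraticChar K z : ℤ) : L) * k (z ^ 2)) *
        ∑ j ∈ range l, ((χ ^ (2 + 2 * l)) z) ^ j - ((quadraticChar K z : ℤ) : L) * k (z ^ 2)) =
      ∑ j ∈ Finset.Ico 1 l, (χ ^ ((1 + l) * j + l)) (z ^ 2) * k (z ^ 2) := by
    intro z
    rw [Finset.range_eq_Ico, Finset.sum_eq_sum_Ico_succ_bot hl0, pow_zero, mul_add, mul_one,
      add_sub_cancel_left, Finset.mul_sum]
    refine Finset.sum_congr rfl fun j _ => ?_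
    rw [← hη]
    have h3 : (χ ^ (2 * l)) z * ((χ ^ (2 + 2 * l)) z) ^ j = (χ ^ ((1 + l) * j + l)) (z ^ 2) := by
      rw [MulChar.pow_apply' _ (by omega), MulChar.pow_apply' _ (by omega),
        MulChar.pow_apply' _ (by omega), map_pow, ← pow_mul, ← pow_mul, ← pow_add]
      congr 1
      ring
    rw [← h3]
    ring
  rw [Finset.sum_congr rfl (fun z _ => h2 z), Finset.sum_comm]
  refine Finset.sum_congr rfl fun j _ => ?_
  rw [sum_sq_eq hK (fun w => (χ ^ ((1 + l) * j + l)) w * k w)]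
  unfold TT
  rw [← Finset.sum_add_distrib]
  refine Finset.sum_congr rfl fun w _ => ?_
  have h4 : (χ ^ ((1 + l) * j + 3 * l)) w = (χ ^ ((1 + l) * j + l)) w * (χ ^ (2 * l)) w := by
    rw [← MulChar.mul_apply, ← pow_add]
    congr 2
    ring
  rw [h4, hη]
  ring

lemma eq_of_sum_eq {ι : Type*} (s : Finset ι) (z : ι → ℂ) (C : ℝ)
    (hb : ∀ i ∈ s, ‖z i‖ ≤ C) (hs : ∑ i ∈ s, z i = s.card * C) : ∀ i ∈ s, z i = C := by
  have hre : ∀ i ∈ s, (z i).re ≤ C := fun i hi => (Complex.re_le_norm _).trans (hb i hi)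
  have h1 : ∑ i ∈ s, (C - (z i).re) = 0 := by
    have h2 := congrArg Complex.re hs
    rw [Complex.re_sum] at h2
    rw [Finset.sum_sub_distrib, h2]
    simp
  have h2 : ∀ i ∈ s, C - (z i).re = 0 := by
    rwa [Finset.sum_eq_zero_iff_of_nonneg (fun i hi => by linarith [hre i hi])] at h1
  intro i hi
  have h3 : (z i).re = C := by linarith [h2 i hi]
  have h4 : (z i).im = 0 := by
    have h5 := hb i hi
    have h6 := Complex.sq_norm (z i)
    rw [Complex.normSq_apply] at h6
    have h7 : ‖z i‖ ^ 2 ≤ C ^ 2 := pow_le_pow_left₀ (norm_nonneg _) h5 2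
    rw [h3] at h6
    nlinarith
  apply Complex.ext
  · simpa using h3
  · simpa using h4

/-- If all character sums are bounded by `C` and the total is maximal, all of them equal `C`. -/
theorem TT_eq [DecidableEq K] (hK : ringChar K ≠ 2) [CharZero L] (ι : L →+* ℂ) {l : ℕ}
    (hl : l.Prime) (hl2 : l % 2 = 1) (k : K → L) (C : ℕ)
    (hb : ∀ χ : MulChar K L, orderOf χ = 4 * l → ‖ι (TT χ k)‖ ≤ C)
    (hsum : ∑ z, (((quadraticChar K (z ^ l) : ℤ) : L) * k ((z ^ l) ^ 2) -
      ((quadraticChar K z : ℤ) : L) * k (z ^ 2)) = ((2 * (l - 1) * C : ℕ) : L))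
    (χ : MulChar K L) (hχ : orderOf χ = 4 * l) :
    TT χ k = C ∧ TT (χ ^ (1 + 2 * l)) k = C := by
  have hl0 := hl.two_le
  rw [basic_identity hK hl hl2 χ hχ k] at hsum
  have horder : ∀ e, Nat.Coprime (4 * l) e → orderOf (χ ^ e) = 4 * l := by
    intro e he
    rw [orderOf_pow, hχ, Nat.Coprime.gcd_eq_one he, Nat.div_one]
  have hndvd : ∀ j ∈ Finset.Ico 1 l, ∀ m, ¬ l ∣ (1 + l) * j + m * l := by
    intro j hj m hd
    rw [Finset.mem_Ico] at hj
    have h1 : (1 + l) * j + m * l = j + l * (j + m) := by ring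
    rw [h1, ← Nat.dvd_add_iff_left (dvd_mul_right l _)] at hd
    exact absurd (Nat.le_of_dvd (by omega) hd) (by omega)
  have heven : ∀ j, ((1 + l) * j) % 2 = 0 := by
    intro j
    rw [Nat.mul_mod, show (1 + l) % 2 = 0 by omega, zero_mul, Nat.zero_mod]
  have hb1 : ∀ j ∈ Finset.Ico 1 l, ‖ι (TT (χ ^ ((1 + l) * j + l)) k)‖ ≤ C := by
    intro j hj
    apply hb
    apply horder
    apply coprime_aux hl
    · have := heven j
      omega
    · have := hndvd j hj 1
      rwa [one_mul] at this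
  have hb2 : ∀ j ∈ Finset.Ico 1 l, ‖ι (TT (χ ^ ((1 + l) * j + 3 * l)) k)‖ ≤ C := by
    intro j hj
    apply hb
    apply horder
    apply coprime_aux hl
    · have := heven j
      omega
    · exact hndvd j hj 3
  -- index by pairs
  set s : Finset (ℕ × Bool) := Finset.Ico 1 l ×ˢ Finset.univ with hs
  set z : ℕ × Bool → ℂ := fun x => if x.2 then ι (TT (χ ^ ((1 + l) * x.1 + l)) k) else
    ι (TT (χ ^ ((1 + l) * x.1 + 3 * l)) k) with hz
  have hzb : ∀ i ∈ s, ‖z i‖ ≤ (C : ℝ) := by
    rintro ⟨j, b⟩ hi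
    rw [hs, Finset.mem_product] at hi
    rw [hz]
    cases b
    · simpa using hb2 j hi.1
    · simpa using hb1 j hi.1
  have hzs : ∑ i ∈ s, z i = (s.card : ℂ) * ((C : ℝ) : ℂ) := by
    rw [hs, Finset.sum_product]
    have h1 : ∀ j, ∑ b : Bool, z (j, b) = ι (TT (χ ^ ((1 + l) * j + l)) k +
        TT (χ ^ ((1 + l) * j + 3 * l)) k) := by
      intro j
      rw [hz, map_add]
      simp
    rw [Finset.sum_congr rfl (fun j _ => h1 j), ← map_sum, hsum, map_natCast,
      Finset.card_product]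
    simp only [Nat.card_Ico, Finset.card_univ, Fintype.card_bool]
    push_cast
    ring
  have hall := eq_of_sum_eq s z C hzb hzs
  have h1mem : (1 : ℕ) ∈ Finset.Ico 1 l := by rw [Finset.mem_Ico]; omega
  have hA := hall (1, true) (by rw [hs, Finset.mem_product]; exact ⟨h1mem, Finset.mem_univ _⟩)
  have hB := hall (1, false) (by rw [hs, Finset.mem_product]; exact ⟨h1mem, Finset.mem_univ _⟩)
  have hA' : ι (TT (χ ^ ((1 + l) * 1 + l)) k) = ((C : ℝ) : ℂ) := hA
  have hB' : ι (TT (χ ^ ((1 + l) * 1 + 3 * l)) k) = ((C : ℝ) : ℂ) := hB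
  have hinj := ι.injective
  constructor
  · apply hinj
    rw [map_natCast]
    have h2 : χ ^ ((1 + l) * 1 + 3 * l) = χ := by
      have : (1 + l) * 1 + 3 * l = 4 * l + 1 := by ring
      rw [this, pow_succ, ← hχ, pow_orderOf_eq_one, one_mul]
    rw [h2] at hB'
    simpa using hB'
  · apply hinj
    rw [map_natCast]
    have h2 : (1 + l) * 1 + l = 1 + 2 * l := by ring
    rw [h2] at hA'
    simpa using hA'

end

end Pool.Agent.Work.MP_a01b15_nt
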