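import Mathlib

set_option autoImplicit false

namespace Pool.Agent.Work.MP_a01b15_nt

open Polynomial

/-- `φ` is the Chebyshev type polynomial `φ_l` of `ℤ[x]`, characterised by
`φ_l (t + 1 / t) = t ^ l + 1 / t ^ l`. -/
def IsChebyshevType (l : ℕ) (φ : ℤ[X]) : Prop :=
  ∀ t : ℂ, t ≠ 0 → aeval (t + t⁻¹) φ = t ^ l + (t⁻¹) ^ l

/-- The `K`-rational points of the smooth projective model of the hyperelliptic curve
`y ^ 2 = φ(x)`, where `φ` has odd degree: the affine points and the single point at infinity. -/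
inductive CurvePoint (φ : ℤ[X]) (K : Type) [Field K] : Type
  | infinity : CurvePoint φ K
  | affine (x y : K) (h : y ^ 2 = aeval x φ) : CurvePoint φ K

/-- The curve `H_l : y ^ 2 = φ_l(x)`, of genus `g = (l - 1) / 2`, is maximal over a field with
`q ^ 2` elements, `q = p ^ f`, for some `f ≥ 1`: its number of rational points is
`q ^ 2 + 1 + 2 * g * q`. -/
def MaximalInCharacteristic (l p : ℕ) : Prop :=
  ∃ φ : ℤ[X], IsChebyshevType l φ ∧ ∃ f : ℕ, 1 ≤ f ∧ ∃ (K : Type) (_ : Field K),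
    Nat.card K = (p ^ f) ^ 2 ∧
      Nat.card (CurvePoint φ K) = (p ^ f) ^ 2 + 1 + 2 * ((l - 1) / 2) * p ^ f

end Pool.Agent.Work.MP_a01b15_nt
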