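import Mathlib
import Pool.Agent.Work.MP_a01b15_nt.Char

set_option autoImplicit false

namespace Pool.Agent.Work.MP_a01b15_nt

open Complex Finset ZMod

variable (l : ℕ) [Fact l.Prime]

/-- The character sum identity forces `∑ χ(x) x = 0`. -/
lemma chi_sum_val (hl : l % 2 = 1) (ψ : DirichletCharacter ℂ l) (p n : ℕ) (hn : 0 < n)
    (hp4 : p % 4 = 1) (hψp : ψ (p : ZMod l) = 1)
    (hs : ∀ a, Nat.Coprime a (4 * l) → ∑ i ∈ range n, sg (2 * l) (p ^ i * a) = 0) :
    ∑ j : ZMod (4 * l), chi l ψ j * (j.val : ℂ) = 0 := by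
  have hlp : l.Prime := Fact.out
  have hl0 := hlp.pos
  have hchip : chi l ψ (p : ZMod (4 * l)) = 1 := by
    rw [chi_apply, hψp, mul_one]
    have h1 : (p : ZMod 4) = 1 := by
      have := (ZMod.natCast_eq_natCast_iff p 1 4).mpr (by unfold Nat.ModEq; omega)
      simpa using this
    rw [h1, map_one]
  have hpu : IsUnit (p : ZMod (4 * l)) := by
    by_contra h
    rw [MulChar.map_nonunit _ h] at hchip
    exact zero_ne_one hchip
  -- the sign function on residues
  set S : ℂ := ∑ x : ZMod (4 * l), chi l ψ x * ((sg (2 * l) x.val : ℤ) : ℂ) with hS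
  have hS0 : S = 0 := by
    have h1 : ∀ i, ∑ x : ZMod (4 * l), chi l ψ x * ((sg (2 * l) (p ^ i * x.val) : ℤ) : ℂ) = S := by
      intro i
      obtain ⟨u, hu⟩ := hpu.pow i
      refine Fintype.sum_bijective (fun x => (u : ZMod (4 * l)) * x) (Units.mulLeft_bijective u)
        _ _ fun x => ?_
      have h2 : chi l ψ ((u : ZMod (4 * l)) * x) = chi l ψ x := by
        rw [map_mul, hu, map_pow, hchip, one_pow, one_mul]
      have h3 : sg (2 * l) ((u : ZMod (4 * l)) * x).val = sg (2 * l) (p ^ i * x.val) := by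
        unfold sg
        have h4 : ((u : ZMod (4 * l)) * x).val = p ^ i * x.val % (2 * (2 * l)) := by
          have h5 : (u : ZMod (4 * l)) * x = ((p ^ i * x.val : ℕ) : ZMod (4 * l)) := by
            rw [hu]
            push_cast
            rw [ZMod.natCast_zmod_val]
          rw [h5, ZMod.val_natCast]
          congr 1
          ring
        rw [h4, Nat.mod_mod]
      rw [h2, h3]
    have h2 : ∑ x : ZMod (4 * l), chi l ψ x *
        ((∑ i ∈ range n, sg (2 * l) (p ^ i * x.val) : ℤ) : ℂ) = n * S := by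
      have h3 : ∀ x : ZMod (4 * l), chi l ψ x *
          ((∑ i ∈ range n, sg (2 * l) (p ^ i * x.val) : ℤ) : ℂ) =
          ∑ i ∈ range n, chi l ψ x * ((sg (2 * l) (p ^ i * x.val) : ℤ) : ℂ) := by
        intro x
        push_cast
        rw [Finset.mul_sum]
      rw [Finset.sum_congr rfl (fun x _ => h3 x), Finset.sum_comm,
        Finset.sum_congr rfl (fun i _ => h1 i)]
      simp
    have h4 : ∑ x : ZMod (4 * l), chi l ψ x *
        ((∑ i ∈ range n, sg (2 * l) (p ^ i * x.val) : ℤ) : ℂ) = 0 := by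
      refine Finset.sum_eq_zero fun x _ => ?_
      by_cases hx : IsUnit x
      · have h5 : Nat.Coprime x.val (4 * l) := by
          rw [← ZMod.isUnit_iff_coprime, ZMod.natCast_zmod_val]
          exact hx
        rw [hs _ h5]
        simp
      · rw [MulChar.map_nonunit _ hx, zero_mul]
    rw [h4] at h2
    have h5 : (n : ℂ) ≠ 0 := by exact_mod_cast hn.ne'
    exact ((mul_eq_zero.mp h2.symm).resolve_left h5)
  set X : ℂ := ∑ j : ZMod (4 * l), chi l ψ j * (j.val : ℂ) with hX
  have hshift : X = - X - (2 * l) * S := by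
    have h1 : X = ∑ x : ZMod (4 * l), chi l ψ (x + (2 * l : ℕ)) * ((x + (2 * l : ℕ)).val : ℂ) := by
      rw [hX]
      symm
      exact Fintype.sum_bijective (fun x => x + ((2 * l : ℕ) : ZMod (4 * l)))
        (Equiv.addRight _).bijective _ _ fun x => rfl
    have h2 : ∀ x : ZMod (4 * l), ((x + (2 * l : ℕ)).val : ℂ) =
        (x.val : ℂ) + (2 * l) * ((sg (2 * l) x.val : ℤ) : ℂ) := by
      intro x
      have hx := ZMod.val_lt x
      have h3 : (x + (2 * l : ℕ)).val = (x.val + 2 * l) % (4 * l) := by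
        rw [ZMod.val_add, ZMod.val_natCast, Nat.add_mod_mod]
      have h4 : x.val % (2 * (2 * l)) = x.val := Nat.mod_eq_of_lt (by omega)
      rw [h3]
      unfold sg
      rw [h4]
      split_ifs with h
      · rw [Nat.mod_eq_of_lt (by omega)]
        push_cast
        ring
      · have h5 : x.val + 2 * l = (x.val - 2 * l) + 4 * l := by omega
        rw [h5, Nat.add_mod_right, Nat.mod_eq_of_lt (by omega), Nat.cast_sub (by omega)]
        push_cast
        ring
    have h3 : - X - (2 * l) * S = ∑ x : ZMod (4 * l), chi l ψ (x + (2 * l : ℕ)) *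
        ((x + (2 * l : ℕ)).val : ℂ) := by
      rw [hX, hS, Finset.mul_sum, ← Finset.sum_neg_distrib, ← Finset.sum_sub_distrib]
      refine Finset.sum_congr rfl fun x _ => ?_
      rw [chi_add l hl, h2]
      ring
    rw [h3, ← h1]
  rw [hS0, mul_zero, sub_zero] at hshift
  have : (2 : ℂ) * X = 0 := by linear_combination hshift
  exact (mul_eq_zero.mp this).resolve_left two_ne_zero

/-- The order statement. -/
theorem order_eq (p n : ℕ) (hl4 : l % 4 = 1) (hp4 : p % 4 = 1) (hpl : ¬ l ∣ p) (hn : 0 < n)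
    (hs : ∀ a, Nat.Coprime a (4 * l) → ∑ i ∈ range n, sg (2 * l) (p ^ i * a) = 0) :
    orderOf (p : ZMod l) = l - 1 := by
  have hlp : l.Prime := Fact.out
  have hl2 := hlp.two_le
  by_contra hne
  have hp0 : (p : ZMod l) ≠ 0 := by
    rw [Ne, ZMod.natCast_eq_zero_iff]
    exact hpl
  have hd : orderOf (p : ZMod l) ∣ l - 1 := orderOf_dvd_of_pow_eq_one (ZMod.pow_card_sub_one_eq_one hp0)
  obtain ⟨m, hm⟩ := hd
  have hl1 : 0 < l - 1 := by omega
  have hm0 : m ≠ 0 := by
    rintro rfl
    omega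
  have hm1 : m ≠ 1 := by
    rintro rfl
    rw [mul_one] at hm
    exact hne hm.symm
  set r := m.minFac with hr
  have hrp : r.Prime := Nat.minFac_prime hm1
  obtain ⟨q, hq⟩ : r ∣ m := Nat.minFac_dvd m
  set e := orderOf (p : ZMod l) * q with he
  have hle : l - 1 = e * r := by
    rw [hm, hq, he]; ring
  have he2 : 2 ∣ e := by
    rcases hrp.eq_two_or_odd with h2 | h2
    · rw [h2] at hle
      exact ⟨(l - 1) / 4, by omega⟩
    · have h3 : 2 ∣ e * r := by rw [← hle]; exact ⟨(l - 1) / 2, by omega⟩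
      rcases (Nat.Prime.dvd_mul Nat.prime_two).mp h3 with h | h
      · exact h
      · omega
  -- a generator of the character group
  obtain ⟨Ψ, hΨ⟩ : ∃ Ψ : MulChar (ZMod l) ℂ, orderOf Ψ = l - 1 := by
    have hprim : IsPrimitiveRoot (Complex.exp (2 * Real.pi * I / ((l - 1 : ℕ) : ℂ))) (l - 1) :=
      Complex.isPrimitiveRoot_exp _ hl1.ne'
    exact MulChar.exists_mulChar_orderOf (ZMod l) (by rw [ZMod.card]) hprim
  set ψ : DirichletCharacter ℂ l := Ψ ^ e with hψ
  have he0 : e ≠ 0 := by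
    intro h
    rw [h] at hle
    omega
  have hψ1 : ψ ≠ 1 := by
    rw [hψ]
    apply pow_ne_one_of_lt_orderOf he0
    rw [hΨ, hle]
    have := hrp.two_le
    have : 0 < e := Nat.pos_of_ne_zero he0
    nlinarith
  have hψp : ψ (p : ZMod l) = 1 := by
    rw [hψ, MulChar.pow_apply' _ he0, ← map_pow, he, pow_mul, pow_orderOf_eq_one, one_pow, map_one]
  have hψneg : ψ (-1) = 1 := by
    rw [hψ, MulChar.pow_apply' _ he0, ← map_pow]
    obtain ⟨k, hk⟩ := he2
    rw [hk, pow_mul]
    simp
  have hodd : l % 2 = 1 := by omega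
  exact sum_val_ne_zero (chi l ψ) (chi_neg_one l ψ hψneg) (chi_dft l hodd ψ hψ1)
    (chi_sum_val l hodd ψ p n hn hp4 hψp hs)

end Pool.Agent.Work.MP_a01b15_nt
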