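import Pool.Agent.Work.MP_a01b15_nt.Power

set_option autoImplicit false

namespace Pool.Agent.Work.MP_a01b15_nt

open Finset Polynomial

section

variable {F E : Type*} [Field F] [Fintype F] [DecidableEq F] [Field E] [Fintype E]
  [DecidableEq E] [Algebra F E]

/-- the sum of the quadratic character over the values of the Chebyshev polynomial -/
noncomputable def SS (F : Type*) [Field F] [Fintype F] [DecidableEq F] (l : ℕ) : ℤ :=
  ∑ x : F, quadraticChar F ((dickson 1 (1 : F) l).eval x)

/-- the function `s ↦ η(s + 1/s)` -/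
noncomputable def hh (F : Type*) {E : Type*} [Field F] [Fintype F] [DecidableEq F] [Field E]
    [Algebra F E] (s : E) : ℤ := quadraticChar F (down (s + s⁻¹))

variable (hE : Fintype.card E = Fintype.card F ^ 2) (h2 : ringChar F ≠ 2)

include hE h2

lemma torus_SS (l : ℕ) :
    ∑ s ∈ univ.filter (fun s : E => s ^ (Fintype.card F - 1) = 1), (hh F (s ^ l) - hh F s) +
    ∑ s ∈ univ.filter (fun s : E => s ^ (Fintype.card F + 1) = 1), (hh F (s ^ l) - hh F s) =
      2 * SS F l := by
  have h1 := torus_sum (F := F) (E := E) hE h2 (fun x => quadraticChar F ((dickson 1 (1 : F) l).eval x))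
  have h3 := torus_sum (F := F) (E := E) hE h2 (fun x => quadraticChar F x)
  rw [quadraticChar_sum_zero h2, mul_zero] at h3
  have h4 : ∀ s ∈ univ.filter (fun s : E => s ^ (Fintype.card F - 1) = 1),
      quadraticChar F ((dickson 1 (1 : F) l).eval (down (s + s⁻¹))) = hh F (s ^ l) := by
    intro s hs
    rw [dickson_down (Or.inl (Finset.mem_filter.mp hs).2), hh]
  have h5 : ∀ s ∈ univ.filter (fun s : E => s ^ (Fintype.card F + 1) = 1),
      quadraticChar F ((dickson 1 (1 : F) l).eval (down (s + s⁻¹))) = hh F (s ^ l) := by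
    intro s hs
    rw [dickson_down (Or.inr (Finset.mem_filter.mp hs).2), hh]
  rw [Finset.sum_congr rfl h4, Finset.sum_congr rfl h5] at h1
  have h6 : ∑ s ∈ univ.filter (fun s : E => s ^ (Fintype.card F - 1) = 1), hh F s +
      ∑ s ∈ univ.filter (fun s : E => s ^ (Fintype.card F + 1) = 1), hh F s = 0 := h3
  rw [Finset.sum_sub_distrib, Finset.sum_sub_distrib]
  have h7 : SS F l = ∑ x : F, quadraticChar F ((dickson 1 (1 : F) l).eval x) := rfl
  rw [h7]
  linear_combination h1 - h6

omit hE h2 in
lemma filter_split (hQ1 : 1 < Fintype.card F) (f : E → ℤ) :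
    ∑ s ∈ univ.filter (fun s : E => s ^ (Fintype.card F - 1) = 1), f s =
      ∑ t ∈ univ.filter (fun t : F => t ≠ 0), f (algebraMap F E t) := by
  symm
  refine Finset.sum_bij (fun t _ => algebraMap F E t) ?_ ?_ ?_ ?_
  · intro t ht
    rw [Finset.mem_filter] at ht ⊢
    refine ⟨Finset.mem_univ _, ?_⟩
    rw [← map_pow, FiniteField.pow_card_sub_one_eq_one t ht.2, map_one]
  · intro a _ b _ h
    exact (algebraMap F E).injective h
  · intro s hs
    rw [Finset.mem_filter] at hs
    have h1 : s ^ Fintype.card F = s := by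
      have : Fintype.card F = (Fintype.card F - 1) + 1 := by omega
      rw [this, pow_succ, hs.2, one_mul]
    obtain ⟨t, rfl⟩ := exists_algebraMap (F := F) s h1
    refine ⟨t, ?_, rfl⟩
    rw [Finset.mem_filter]
    refine ⟨Finset.mem_univ _, ?_⟩
    rintro rfl
    rw [map_zero, zero_pow (by omega)] at hs
    exact zero_ne_one hs.2
  · intro t _
    rfl

/-- Case `l ∤ Q ^ 2 - 1`. -/
lemma SS_eq_zero {l : ℕ} (h1 : Nat.Coprime l (Fintype.card F - 1))
    (h3 : Nat.Coprime l (Fintype.card F + 1)) : SS F l = 0 := by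
  obtain ⟨m, hm, hm0⟩ := card_odd (E := E) hE h2
  have := torus_SS (F := F) (E := E) hE h2 l
  rw [Finset.sum_sub_distrib, Finset.sum_sub_distrib,
    sum_pow_coprime (by omega) h1 (fun s : E => hh F s),
    sum_pow_coprime (by omega) h3 (fun s : E => hh F s), sub_self, sub_self, add_zero] at this
  omega

/-- Case `l ∣ Q - 1`: the values. -/
lemma SS_split {l : ℕ} (h3 : Nat.Coprime l (Fintype.card F + 1)) (hl : 0 < l) :
    ∑ t : F, (quadraticChar F (t ^ l) * quadraticChar F (1 + (t ^ l) ^ 2) -
      quadraticChar F t * quadraticChar F (1 + t ^ 2)) = 2 * SS F l := by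
  obtain ⟨m, hm, hm0⟩ := card_odd (E := E) hE h2
  have := torus_SS (F := F) (E := E) hE h2 l
  rw [Finset.sum_sub_distrib (s := univ.filter (fun s : E => s ^ (Fintype.card F + 1) = 1)),
    sum_pow_coprime (by omega) h3 (fun s : E => hh F s), sub_self, add_zero,
    filter_split (by omega)] at this
  rw [← this]
  have hval : ∀ t : F, t ≠ 0 → hh F (algebraMap F E t) =
      quadraticChar F t * quadraticChar F (1 + t ^ 2) := by
    intro t ht
    rw [hh, ← map_inv₀, ← map_add, down_algebraMap]
    have h4 : t + t⁻¹ = t⁻¹ * (1 + t ^ 2) := by field_simp; ring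
    rw [h4, map_mul]
    congr 1
    have h5 : quadraticChar F t⁻¹ * quadraticChar F t = 1 := by
      rw [← map_mul, inv_mul_cancel₀ ht, map_one]
    rcases quadraticChar_dichotomy ht with h6 | h6 <;> rw [h6] at h5 ⊢ <;> linarith
  rw [← Finset.sum_filter_add_sum_filter_not univ (fun t : F => t ≠ 0)]
  have hz : ∑ x ∈ univ.filter (fun t : F => ¬ t ≠ 0),
      (quadraticChar F (x ^ l) * quadraticChar F (1 + (x ^ l) ^ 2) -
      quadraticChar F x * quadraticChar F (1 + x ^ 2)) = 0 := by
    apply Finset.sum_eq_zero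
    intro x hx
    rw [Finset.mem_filter, not_not] at hx
    rw [hx.2, zero_pow hl.ne', quadraticChar_zero]
    ring
  rw [hz, add_zero]
  refine Finset.sum_congr rfl fun t ht => ?_
  rw [Finset.mem_filter] at ht
  rw [hval t ht.2, ← map_pow, hval _ (pow_ne_zero _ ht.2)]

/-- the norm and the trace -/
lemma hh_pow (z : E) (hz : z ≠ 0) : hh F (z ^ (Fintype.card F - 1)) =
    quadraticChar E z * quadraticChar F (Algebra.trace F E (z ^ 2)) := by
  obtain ⟨m, hm, hm0⟩ := card_odd (E := E) hE h2
  have hfin : Module.finrank F E = 2 := by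
    have h3 := Module.card_eq_pow_finrank (K := F) (V := E)
    rw [hE] at h3
    exact (Nat.pow_right_injective (Fintype.one_lt_card (α := F)) h3).symm
  have hzQ : z ^ (Fintype.card F ^ 2) = z := by rw [← hE]; exact FiniteField.pow_card z
  -- the norm
  have hNf : (z ^ (Fintype.card F + 1)) ^ Fintype.card F = z ^ (Fintype.card F + 1) := by
    rw [← pow_mul, add_mul, pow_add, ← sq, hzQ, one_mul, pow_succ, mul_comm]
  obtain ⟨N, hN⟩ := exists_algebraMap (F := F) _ hNf
  have hN0 : N ≠ 0 := by
    rintro rfl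
    rw [map_zero] at hN
    exact pow_ne_zero _ hz hN.symm
  have hT : algebraMap F E (Algebra.trace F E (z ^ 2)) = z ^ 2 + (z ^ 2) ^ Fintype.card F := by
    rw [FiniteField.algebraMap_trace_eq_sum_pow, hfin, Finset.sum_range_succ, Finset.sum_range_one,
      pow_zero, pow_one, pow_one, Nat.card_eq_fintype_card]
  have hd : (down (z ^ (Fintype.card F - 1) + (z ^ (Fintype.card F - 1))⁻¹) : F) =
      Algebra.trace F E (z ^ 2) * N⁻¹ := by
    have h3 : algebraMap F E (Algebra.trace F E (z ^ 2) * N⁻¹) =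
        z ^ (Fintype.card F - 1) + (z ^ (Fintype.card F - 1))⁻¹ := by
      rw [map_mul, map_inv₀, hN, hT]
      have h4 : z ^ (Fintype.card F + 1) = z ^ (Fintype.card F - 1) * z ^ 2 := by
        rw [← pow_add]; congr 1; omega
      have h5 : (z ^ 2) ^ Fintype.card F = (z ^ (Fintype.card F - 1)) ^ 2 * z ^ 2 := by
        rw [← pow_mul, ← pow_mul, ← pow_add]; congr 1; omega
      rw [h4, h5]
      have h6 : z ^ (Fintype.card F - 1) ≠ 0 := pow_ne_zero _ hz
      field_simp
      ring
    rw [← h3, down_algebraMap]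
  have hNinv : quadraticChar F N⁻¹ = quadraticChar F N := by
    have h5 : quadraticChar F N⁻¹ * quadraticChar F N = 1 := by
      rw [← map_mul, inv_mul_cancel₀ hN0, map_one]
    rcases quadraticChar_dichotomy hN0 with h6 | h6 <;> rw [h6] at h5 ⊢ <;> linarith
  have hNE : quadraticChar F N = quadraticChar E z := by
    have hE2 := ringChar_E (F := F) (E := E) hE h2
    have h3 := congrArg (algebraMap F E) (quadraticChar_eq_pow_of_char_ne_two' h2 N)
    have h4 := quadraticChar_eq_pow_of_char_ne_two' hE2 z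
    rw [map_pow, hN, ← pow_mul, map_intCast] at h3
    have h5 : (Fintype.card F + 1) * (Fintype.card F / 2) = Fintype.card E / 2 := by
      rw [hE, hm]
      have h6 : (2 * m + 1) / 2 = m := by omega
      have h7 : (2 * m + 1) ^ 2 = 2 * ((2 * m + 1 + 1) * m) + 1 := by ring
      rw [h6, h7]
      omega
    rw [h5, ← h4] at h3
    have h20 := two_ne_zero_E (F := F) (E := E) hE h2
    rcases quadraticChar_dichotomy hN0 with h6 | h6 <;>
      rcases quadraticChar_dichotomy hz with h7 | h7 <;> rw [h6, h7] at h3 ⊢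
    · exfalso
      push_cast at h3
      exact h20 (by linear_combination h3)
    · exfalso
      push_cast at h3
      exact h20 (by linear_combination -h3)
  rw [hh, hd, map_mul, hNinv, hNE, mul_comm]

/-- Case `l ∣ Q + 1`: the values. -/
lemma SS_nonsplit {l : ℕ} (h1 : Nat.Coprime l (Fintype.card F - 1)) (hl : 0 < l) :
    ∑ z : E, (quadraticChar E (z ^ l) * quadraticChar F (Algebra.trace F E ((z ^ l) ^ 2)) -
      quadraticChar E z * quadraticChar F (Algebra.trace F E (z ^ 2))) =
        (Fintype.card F - 1 : ℕ) * (2 * SS F l) := by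
  obtain ⟨m, hm, hm0⟩ := card_odd (E := E) hE h2
  have := torus_SS (F := F) (E := E) hE h2 l
  rw [Finset.sum_sub_distrib (s := univ.filter (fun s : E => s ^ (Fintype.card F - 1) = 1)),
    sum_pow_coprime (by omega) h1 (fun s : E => hh F s), sub_self, zero_add] at this
  rw [← this]
  have hcE : Fintype.card E - 1 = (Fintype.card F - 1) * (Fintype.card F + 1) := by
    rw [hE, hm]
    have h7 : (2 * m + 1) ^ 2 = 2 * m * (2 * m + 1 + 1) + 1 := by ring
    rw [h7]
    rfl
  rw [← sum_pow_fibre (by omega) hcE (fun s : E => hh F (s ^ l) - hh F s)]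
  rw [← Finset.sum_filter_add_sum_filter_not univ (fun t : E => t ≠ 0)]
  have hz : ∑ x ∈ univ.filter (fun t : E => ¬ t ≠ 0),
      (quadraticChar E (x ^ l) * quadraticChar F (Algebra.trace F E ((x ^ l) ^ 2)) -
      quadraticChar E x * quadraticChar F (Algebra.trace F E (x ^ 2))) = 0 := by
    apply Finset.sum_eq_zero
    intro x hx
    rw [Finset.mem_filter, not_not] at hx
    rw [hx.2, zero_pow hl.ne', quadraticChar_zero]
    ring
  rw [hz, add_zero]
  refine Finset.sum_congr rfl fun z hz => ?_
  rw [Finset.mem_filter] at hz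
  rw [hh_pow hE h2 z hz.2]
  have : (z ^ (Fintype.card F - 1)) ^ l = (z ^ l) ^ (Fintype.card F - 1) := by
    rw [← pow_mul, ← pow_mul, mul_comm]
  rw [this, hh_pow hE h2 (z ^ l) (pow_ne_zero _ hz.2)]

end

end Pool.Agent.Work.MP_a01b15_nt
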