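import Pool.Agent.Work.MP_a01b15_nt.Transfer
import Pool.Agent.Work.MP_a01b15_nt.Split
import Pool.Agent.Work.MP_a01b15_nt.Comb
import Pool.Agent.Work.MP_a01b15_nt.Order

set_option autoImplicit false

namespace Pool.Agent.Work.MP_a01b15_nt

open Finset Polynomial

/-- the field of algebraic numbers -/
abbrev LL : Type := AlgebraicClosure ℚ

/-- the complex embedding -/
noncomputable def iC : LL →+* ℂ :=
  letI : Algebra ℚ (AlgebraicClosure ℚ) := AlgebraicClosure.instAlgebra ℚ
  haveI : Algebra.IsAlgebraic ℚ (AlgebraicClosure ℚ) := AlgebraicClosure.isAlgebraic ℚ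
  (IsAlgClosed.lift : AlgebraicClosure ℚ →ₐ[ℚ] ℂ).toRingHom

section

variable (p : ℕ) [Fact p.Prime]

/-- the `p`-adic embedding -/
noncomputable def iP : LL →+* PadicAlgCl p :=
  letI : Algebra ℚ (AlgebraicClosure ℚ) := AlgebraicClosure.instAlgebra ℚ
  haveI : Algebra.IsAlgebraic ℚ (AlgebraicClosure ℚ) := AlgebraicClosure.isAlgebraic ℚ
  (IsAlgClosed.lift : AlgebraicClosure ℚ →ₐ[ℚ] PadicAlgCl p).toRingHom

/-- the `p`-adic absolute value -/
noncomputable def vP : AbsoluteValue LL ℝ :=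
  (NormedField.toAbsoluteValue (PadicAlgCl p)).comp (iP p).injective

lemma vP_apply (x : LL) : vP p x = ‖iP p x‖ := rfl

lemma vP_nonarch : IsNonarchimedean (vP p) := by
  intro x y
  rw [vP_apply, vP_apply, vP_apply, map_add]
  exact PadicAlgCl.isNonarchimedean p _ _

lemma vP_p : vP p (p : LL) < 1 := by
  rw [vP_apply, map_natCast]
  have h := PadicAlgCl.norm_extends p (p : ℚ_[p])
  have h1 : ((p : ℚ_[p]) : PadicAlgCl p) = (p : PadicAlgCl p) :=
    map_natCast (algebraMap ℚ_[p] (PadicAlgCl p)) p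
  rw [h1] at h
  rw [h]
  exact Padic.norm_p_lt_one

end

section

variable (p : ℕ) [Fact p.Prime] {K : Type*} [Field K] [Finite K] [Algebra (ZMod p) K]
  {L : Type*} [Field L]

/-- the standard additive character of a finite field -/
noncomputable def psi (K : Type*) [Field K] [Finite K] [Algebra (ZMod p) K] {ζ : L}
    (hζ : IsPrimitiveRoot ζ p) : AddChar K L :=
  (AddChar.zmodChar p hζ.pow_eq_one).compAddMonoidHom
    (Algebra.trace (ZMod p) K).toAddMonoidHom

lemma psi_apply {ζ : L} (hζ : IsPrimitiveRoot ζ p) (x : K) :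
    psi p K hζ x = AddChar.zmodChar p hζ.pow_eq_one (Algebra.trace (ZMod p) K x) := rfl

lemma psi_pow {ζ : L} (hζ : IsPrimitiveRoot ζ p) (x : K) :
    psi p K hζ (x ^ p) = psi p K hζ x := by
  have : Fintype K := Fintype.ofFinite K
  rw [psi_apply, psi_apply]
  congr 1
  have h := Algebra.trace_eq_of_algEquiv (FiniteField.frobeniusAlgEquivOfAlgebraic (ZMod p) K) x
  rw [← h]
  congr 1
  rw [FiniteField.frobeniusAlgEquivOfAlgebraic_apply, ZMod.card]

lemma psi_primitive {ζ : L} (hζ : IsPrimitiveRoot ζ p) : (psi p K hζ).IsPrimitive := by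
  apply AddChar.IsPrimitive.of_ne_one
  intro h
  have h1 : ∀ x : K, psi p K hζ x = 1 := fun x => by rw [h]; rfl
  have hs : Function.Surjective (Algebra.trace (ZMod p) K) := Algebra.trace_surjective (ZMod p) K
  obtain ⟨x, hx⟩ := hs 1
  have h2 := h1 x
  rw [psi_apply, hx] at h2
  have h3 : AddChar.zmodChar p hζ.pow_eq_one (1 : ZMod p) = ζ := by
    have := AddChar.zmodChar_apply' hζ.pow_eq_one 1
    rw [Nat.cast_one, pow_one] at this
    exact this
  rw [h3] at h2
  have hp : p.Prime := Fact.out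
  rw [h2] at hζ
  exact hp.one_lt.ne' (IsPrimitiveRoot.unique hζ IsPrimitiveRoot.one)

lemma psi_trace {E : Type*} [Field E] [Finite E] [Algebra (ZMod p) E] [Algebra K E]
    [IsScalarTower (ZMod p) K E] {ζ : L} (hζ : IsPrimitiveRoot ζ p) (x : E) :
    psi p E hζ x = psi p K hζ (Algebra.trace K E x) := by
  rw [psi_apply, psi_apply, Algebra.trace_trace]

end

/-- From equality of the valuations to the order. -/
theorem order_of_valuations {K : Type*} [Field K] [Fintype K] (l p : ℕ) [Fact l.Prime]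
    [Fact p.Prime] [CharP K p] (hl4 : l % 4 = 1) (hp4 : p % 4 = 1) (hpl : ¬ l ∣ p) {n : ℕ}
    (hn0 : 0 < n) (hn : Fintype.card K = p ^ n)
    (ψ : AddChar K LL) (hψ : ψ.IsPrimitive) (hψ' : ∀ x, ψ (x ^ p) = ψ x)
    (hdvd : 4 * l ∣ p ^ n - 1)
    (hyp : ∀ χ : MulChar K LL, orderOf χ = 4 * l →
      vP p (gaussSum (χ ^ (1 + 2 * l)) ψ) = vP p (gaussSum χ ψ)) :
    orderOf (p : ZMod l) = l - 1 := by
  have hl : l.Prime := Fact.out
  have hl2 := hl.two_le
  have h4 : 2 * (2 * l) = 4 * l := by ring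
  refine order_eq l p n hl4 hp4 hpl hn0 fun a ha => ?_
  refine sum_sg_eq_zero (vP_nonarch p) p (by omega) (vP_p p) hn ψ hψ hψ' (by omega)
    (by rw [h4]; exact hdvd) ?_ a (by rw [h4]; exact ha)
  intro χ hχ
  rw [h4] at hχ
  exact hyp χ hχ

/-- The main theorem in terms of the character sum. -/
theorem order_of_SS (l p f : ℕ) [Fact l.Prime] [Fact p.Prime] (hl4 : l % 4 = 1)
    (hp4 : p % 4 = 1) (hne : l ≠ p) (hf : 0 < f) {F : Type} [Field F] [Fintype F] [DecidableEq F]
    (hcard : Fintype.card F = (p ^ f) ^ 2) (hS : SS F l = ((l - 1 : ℕ) * (p ^ f : ℕ) : ℤ)) :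
    orderOf (p : ZMod l) = l - 1 := by
  classical
  have hl : l.Prime := Fact.out
  have hp : p.Prime := Fact.out
  have hl2 := hl.two_le
  have hl5 : 5 ≤ l := by omega
  have hp5 : 5 ≤ p := by have := hp.two_le; omega
  have hpl : ¬ l ∣ p := fun h => hne ((Nat.prime_dvd_prime_iff_eq hl hp).mp h)
  have hchar : CharP F p := by
    have h1 : Fintype.card F = p ^ (f * 2) := by rw [hcard, pow_mul]
    exact charP_of_card_eq_prime_pow h1
  let : Algebra (ZMod p) F := ZMod.algebra F p
  set E := FiniteField.Extension F p 2 with hEdef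
  let : Fintype E := Fintype.ofFinite E
  have hE : Fintype.card E = Fintype.card F ^ 2 := by
    rw [← Nat.card_eq_fintype_card, ← Nat.card_eq_fintype_card]
    exact FiniteField.natCard_extension F p 2
  have hF2 : ringChar F ≠ 2 := by
    rw [ringChar.eq F p]
    omega
  have hE2 : ringChar E ≠ 2 := ringChar_E (F := F) hE hF2
  have hEp : CharP E p := charP_of_injective_algebraMap (algebraMap F E).injective p
  obtain ⟨ζ, hζ⟩ := HasEnoughRootsOfUnity.exists_primitiveRoot LL p
  -- congruences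
  have hq4 : (p ^ f) % 4 = 1 := by
    rw [Nat.pow_mod, hp4, one_pow]
    rfl
  obtain ⟨u, hu⟩ : ∃ u, p ^ f = 4 * u + 1 := ⟨p ^ f / 4, by omega⟩
  have hQ8 : Fintype.card F = 8 * (u * (2 * u + 1)) + 1 := by
    rw [hcard, hu]; ring
  have hu0 : 0 < u := by
    rcases Nat.eq_zero_or_pos u with h | h
    · rw [h] at hu
      have : 1 < p ^ f := Nat.one_lt_pow hf.ne' hp.one_lt
      omega
    · exact h
  have hQ1 := Fintype.one_lt_card (α := F)
  have hSS0 : SS F l ≠ 0 := by
    rw [hS]
    have h1 : 0 < (l - 1) * p ^ f := Nat.mul_pos (by omega) (Nat.pow_pos hp.pos)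
    exact_mod_cast h1.ne'
  have hl2' : l % 2 = 1 := by omega
  by_cases h1 : l ∣ Fintype.card F - 1
  · -- split case
    have h3 : Nat.Coprime l (Fintype.card F + 1) := by
      rw [Nat.Prime.coprime_iff_not_dvd hl]
      intro h
      have h4 := (Nat.dvd_add_right h1).mp (show l ∣ (Fintype.card F - 1) + 2 by
        have : Fintype.card F - 1 + 2 = Fintype.card F + 1 := by omega
        rw [this]; exact h)
      have := Nat.le_of_dvd (by norm_num) h4
      omega
    have hn : Fintype.card F = p ^ (f * 2) := by rw [hcard, pow_mul]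
    refine order_of_valuations l p hl4 hp4 hpl (n := f * 2) (by omega) hn (psi p F hζ)
      (psi_primitive p hζ) (psi_pow p hζ) ?_ ?_
    · rw [← hn]
      have h5 : Nat.Coprime 4 l := by
        rw [Nat.coprime_comm, Nat.Prime.coprime_iff_not_dvd hl]
        intro h
        have := Nat.le_of_dvd (by norm_num) h
        omega
      refine Nat.Coprime.mul_dvd_of_dvd_of_dvd h5 ?_ h1
      exact ⟨2 * (u * (2 * u + 1)), by omega⟩
    · refine split_case iC (vP p) hF2 hl hl2' (p ^ f) hcard (psi p F hζ) (psi_primitive p hζ) ?_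
      rw [SS_split (E := E) hE hF2 h3 hl.pos, hS]
  · have h1' : Nat.Coprime l (Fintype.card F - 1) := (Nat.Prime.coprime_iff_not_dvd hl).mpr h1
    by_cases h3 : l ∣ Fintype.card F + 1
    · -- nonsplit case
      have hn : Fintype.card E = p ^ (f * 2 * 2) := by rw [hE, hcard, pow_mul, pow_mul]
      refine order_of_valuations l p hl4 hp4 hpl (n := f * 2 * 2) (by omega) hn (psi p E hζ)
        (psi_primitive p hζ) (psi_pow p hζ) ?_ ?_
      · rw [← hn, hE]
        obtain ⟨c, hc⟩ := h3
        obtain ⟨w, hw⟩ : ∃ w, w = u * (2 * u + 1) := ⟨_, rfl⟩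
        rw [← hw] at hQ8
        have h6 : Fintype.card F ^ 2 - 1 = 8 * w * (l * c) := by
          rw [← hc, hQ8]
          have : (8 * w + 1) ^ 2 = 8 * w * (8 * w + 1 + 1) + 1 := by ring
          rw [this]; rfl
        rw [h6]
        exact ⟨2 * w * c, by ring⟩
      · refine nonsplit_case (F := F) iC (vP p) hF2 hE2 hE hl hl2' (p ^ f) hcard (psi p F hζ)
          (psi_primitive p hζ) (psi p E hζ) (psi_primitive p hζ) (psi_trace p hζ) ?_
        rw [SS_nonsplit hE hF2 h1' hl.pos, hS]
    · exfalso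
      exact hSS0 (SS_eq_zero (E := E) hE hF2 h1' ((Nat.Prime.coprime_iff_not_dvd hl).mpr h3))

end Pool.Agent.Work.MP_a01b15_nt
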