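import Pool.Agent.Work.MP_a01b15_nt.Defs
import Pool.Agent.Work.MP_a01b15_nt.Setup

set_option autoImplicit false

namespace Pool.Agent.Work.MP_a01b15_nt

open Finset Polynomial

/-- the defining property determines the polynomial -/
lemma eq_dickson {l : ℕ} {φ : ℤ[X]} (h : IsChebyshevType l φ) : φ = dickson 1 (1 : ℤ) l := by
  apply map_injective (algebraMap ℤ ℂ) (RingHom.injective_int (algebraMap ℤ ℂ))
  rw [map_dickson, map_one]
  refine Polynomial.funext fun x => ?_
  obtain ⟨d, hd⟩ := IsAlgClosed.exists_pow_nat_eq (x ^ 2 - 4) (n := 2) (by norm_num)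
  set t : ℂ := (x + d) / 2 with ht
  have h1 : t ^ 2 - x * t + 1 = 0 := by
    rw [ht]
    linear_combination (1 / 4) * hd
  have ht0 : t ≠ 0 := by
    intro h0
    rw [h0] at h1
    simp at h1
  have h2 : t + t⁻¹ = x := by
    field_simp
    linear_combination h1
  have h3 := h t ht0
  rw [h2] at h3
  rw [eval_map_algebraMap, h3, ← h2, dickson_one_one_eval_add_inv _ _ (mul_inv_cancel₀ ht0)]

/-- counting points -/
lemma card_points (l : ℕ) (K : Type) [Field K] [Fintype K] [DecidableEq K] (hK : ringChar K ≠ 2)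
    {φ : ℤ[X]} (h : IsChebyshevType l φ) :
    (Nat.card (CurvePoint φ K) : ℤ) = Fintype.card K + 1 + SS K l := by
  classical
  have hφ := eq_dickson h
  have hev : ∀ x : K, aeval x φ = (dickson 1 (1 : K) l).eval x := by
    intro x
    rw [hφ]
    have h2 := map_dickson (k := 1) (a := (1 : ℤ)) (algebraMap ℤ K) l
    rw [map_one] at h2
    rw [← h2, eval_map_algebraMap]
  let e : CurvePoint φ K ≃ Option (Σ x : K, {y : K // y ^ 2 = aeval x φ}) :=
    { toFun := fun P => match P with
        | .infinity => none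
        | .affine x y h => some ⟨x, ⟨y, h⟩⟩
      invFun := fun P => match P with
        | none => .infinity
        | some ⟨x, ⟨y, h⟩⟩ => .affine x y h
      left_inv := fun P => by cases P <;> rfl
      right_inv := fun P => by rcases P with _ | ⟨x, ⟨y, h⟩⟩ <;> rfl }
  rw [Nat.card_congr e, Nat.card_eq_fintype_card, Fintype.card_option, Fintype.card_sigma]
  have h1 : ∀ x : K, (Fintype.card {y : K // y ^ 2 = aeval x φ} : ℤ) =
      quadraticChar K ((dickson 1 (1 : K) l).eval x) + 1 := by
    intro x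
    rw [← hev, ← quadraticChar_card_sqrts hK (aeval x φ), Fintype.card_subtype]
    congr 2
    ext y
    simp
  push_cast
  rw [Finset.sum_congr rfl fun x _ => h1 x, Finset.sum_add_distrib]
  simp only [Finset.sum_const, Finset.card_univ, nsmul_eq_mul, mul_one]
  rw [SS]
  ring

theorem main (l p : ℕ) (hl : l.Prime) (hp : p.Prime) (hne : l ≠ p) (hl4 : l ≡ 1 [MOD 4])
    (hp4 : p ≡ 1 [MOD 4]) (h : MaximalInCharacteristic l p) : orderOf (p : ZMod l) = l - 1 := by
  classical
  obtain ⟨φ, hφ, f, hf, K, hKf, hK, hcard⟩ := h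
  have hlF : Fact l.Prime := ⟨hl⟩
  have hpF : Fact p.Prime := ⟨hp⟩
  have hfin : Finite K := by
    apply Nat.finite_of_card_ne_zero
    rw [hK]
    exact pow_ne_zero _ (pow_ne_zero _ hp.ne_zero)
  have : Fintype K := Fintype.ofFinite K
  rw [Nat.card_eq_fintype_card] at hK
  have hchar : CharP K p := by
    have h1 : Fintype.card K = p ^ (f * 2) := by rw [hK, pow_mul]
    exact charP_of_card_eq_prime_pow h1
  have hK2 : ringChar K ≠ 2 := by
    rw [ringChar.eq K p]
    rintro rfl
    exact absurd hp4 (by decide)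
  have h1 := card_points l K hK2 hφ
  rw [hcard, hK] at h1
  have hl4' : l % 4 = 1 := hl4
  have hp4' : p % 4 = 1 := hp4
  have h2 : 2 * ((l - 1) / 2) = l - 1 := by omega
  rw [h2] at h1
  refine order_of_SS l p f hl4' hp4' hne hf hK ?_
  push_cast at h1 ⊢
  linarith

end Pool.Agent.Work.MP_a01b15_nt
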