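import Pool.Agent.Work.MP_a01b15_nt.Torus

set_option autoImplicit false

namespace Pool.Agent.Work.MP_a01b15_nt

open Finset Polynomial

section

variable {E : Type*} [Field E] [Fintype E] [DecidableEq E] {A : Type*} [CommRing A]

/-- Raising to an exponent prime to `k` permutes the `k`-th roots of unity. -/
lemma sum_pow_coprime {k l : ℕ} (hk : 1 < k) (hc : Nat.Coprime l k) (f : E → A) :
    ∑ s ∈ univ.filter (fun s : E => s ^ k = 1), f (s ^ l) =
      ∑ s ∈ univ.filter (fun s : E => s ^ k = 1), f s := by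
  obtain ⟨m, -, hm⟩ := Nat.exists_mul_mod_eq_one_of_coprime hc hk
  have key : ∀ s : E, s ^ k = 1 → s ^ (l * m) = s := by
    intro s hs
    rw [pow_eq_pow_mod (l * m) hs, hm, pow_one]
  refine Finset.sum_bij' (fun s _ => s ^ l) (fun s _ => s ^ m) ?_ ?_ ?_ ?_ ?_
  · intro s hs
    rw [Finset.mem_filter] at hs ⊢
    exact ⟨Finset.mem_univ _, by rw [← pow_mul, mul_comm, pow_mul, hs.2, one_pow]⟩
  · intro s hs
    rw [Finset.mem_filter] at hs ⊢
    exact ⟨Finset.mem_univ _, by rw [← pow_mul, mul_comm, pow_mul, hs.2, one_pow]⟩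
  · intro s hs
    rw [Finset.mem_filter] at hs
    rw [← pow_mul, key s hs.2]
  · intro s hs
    rw [Finset.mem_filter] at hs
    rw [← pow_mul, mul_comm, key s hs.2]
  · intro s hs
    rfl

/-- sums over `k`-th roots of unity in terms of a primitive one -/
lemma sum_roots {k : ℕ} (hk : 0 < k) {ζ : E} (hζ : IsPrimitiveRoot ζ k) (f : E → A) :
    ∑ s ∈ univ.filter (fun s : E => s ^ k = 1), f s = ∑ i ∈ range k, f (ζ ^ i) := by
  symm
  have : NeZero k := ⟨hk.ne'⟩
  refine Finset.sum_bij (fun i _ => ζ ^ i) ?_ ?_ ?_ ?_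
  · intro i _
    rw [Finset.mem_filter]
    exact ⟨Finset.mem_univ _, by rw [← pow_mul, mul_comm, pow_mul, hζ.pow_eq_one, one_pow]⟩
  · intro i hi j hj h
    exact hζ.pow_inj (Finset.mem_range.mp hi) (Finset.mem_range.mp hj) h
  · intro s hs
    rw [Finset.mem_filter] at hs
    obtain ⟨i, hi, h⟩ := hζ.eq_pow_of_pow_eq_one hs.2
    exact ⟨i, Finset.mem_range.mpr hi, h⟩
  · intro i _
    rfl

lemma sum_range_periodic {n : ℕ} (g : ℕ → A) (hg : ∀ i, g (i + n) = g i) (m : ℕ) :
    ∑ i ∈ range (m * n), g i = m * ∑ i ∈ range n, g i := by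
  have hg' : ∀ m i, g (m * n + i) = g i := by
    intro m
    induction m with
    | zero => intro i; simp
    | succ m ih =>
      intro i
      rw [Nat.succ_mul, add_assoc, ih, add_comm n i, hg]
  induction m with
  | zero => simp
  | succ m ih =>
    rw [Nat.succ_mul, Finset.sum_range_add, ih, Finset.sum_congr rfl fun i _ => hg' m i]
    push_cast
    ring

/-- The map `z ↦ z ^ M` is `M`-to-one from the nonzero elements onto the `N`-th roots of unity, if
`M * N` is the number of nonzero elements. -/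
lemma sum_pow_fibre {M N : ℕ} (hN : 0 < N) (hMN : Fintype.card E - 1 = M * N) (f : E → A) :
    ∑ z ∈ univ.filter (fun z : E => z ≠ 0), f (z ^ M) =
      M * ∑ s ∈ univ.filter (fun s : E => s ^ N = 1), f s := by
  have hcard := Fintype.one_lt_card (α := E)
  have hM : 0 < M := by
    rcases Nat.eq_zero_or_pos M with h | h
    · rw [h, zero_mul] at hMN; omega
    · exact h
  obtain ⟨g, hg⟩ := IsCyclic.exists_generator (α := Eˣ)
  have hgo : orderOf g = Fintype.card E - 1 := by
    rw [orderOf_eq_card_of_forall_mem_zpowers hg, Nat.card_eq_fintype_card, Fintype.card_units]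
  have hgp : IsPrimitiveRoot (g : E) (M * N) := by
    rw [IsPrimitiveRoot.coe_units_iff, ← hMN, ← hgo]
    exact IsPrimitiveRoot.orderOf g
  have hgN : IsPrimitiveRoot ((g : E) ^ M) N :=
    hgp.pow (Nat.mul_pos hM hN) rfl
  have h1 : univ.filter (fun z : E => z ≠ 0) = univ.filter (fun z : E => z ^ (M * N) = 1) := by
    ext z
    simp only [Finset.mem_filter, Finset.mem_univ, true_and]
    rw [← hMN]
    constructor
    · intro h
      exact FiniteField.pow_card_sub_one_eq_one z h
    · rintro h rfl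
      rw [zero_pow (by omega)] at h
      exact zero_ne_one h
  rw [h1, sum_roots (Nat.mul_pos hM hN) hgp, sum_roots hN hgN, ← sum_range_periodic]
  · refine Finset.sum_congr rfl fun i _ => ?_
    rw [← pow_mul, ← pow_mul, mul_comm]
  · intro i
    rw [← pow_mul, ← pow_mul, mul_add, pow_add, hgp.pow_eq_one, mul_one]

end

section

variable {F E : Type*} [Field F] [Fintype F] [Field E] [Fintype E] [Algebra F E]

/-- Chebyshev polynomials and the map `s ↦ s + 1/s`. -/
lemma dickson_down {s : E}
    (hs : s ^ (Fintype.card F - 1) = 1 ∨ s ^ (Fintype.card F + 1) = 1) (l : ℕ) :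
    (dickson 1 (1 : F) l).eval (down (s + s⁻¹)) = down (s ^ l + (s ^ l)⁻¹) := by
  have hQ := Fintype.one_lt_card (α := F)
  have hs0 : s ≠ 0 := by
    rintro rfl
    rcases hs with h | h
    · rw [zero_pow (by omega)] at h
      exact zero_ne_one h
    · rw [zero_pow (by omega)] at h
      exact zero_ne_one h
  have hsl : (s ^ l) ^ (Fintype.card F - 1) = 1 ∨ (s ^ l) ^ (Fintype.card F + 1) = 1 := by
    rcases hs with h | h
    · left; rw [← pow_mul, mul_comm, pow_mul, h, one_pow]
    · right; rw [← pow_mul, mul_comm, pow_mul, h, one_pow]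
  apply (algebraMap F E).injective
  rw [algebraMap_down (add_inv_frob hsl)]
  have h1 : algebraMap F E ((dickson 1 (1 : F) l).eval (down (s + s⁻¹))) =
      (dickson 1 (1 : E) l).eval (algebraMap F E (down (s + s⁻¹))) := by
    have h2 := map_dickson (k := 1) (a := (1 : F)) (algebraMap F E) l
    rw [map_one] at h2
    rw [← h2, eval_map_algebraMap, aeval_algebraMap_apply_eq_algebraMap_eval]
  rw [h1, algebraMap_down (add_inv_frob hs), dickson_one_one_eval_add_inv _ _ (mul_inv_cancel₀ hs0),
    inv_pow]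

end

end Pool.Agent.Work.MP_a01b15_nt
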