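import Mathlib

set_option autoImplicit false

namespace Pool.Agent.Work.MP_a01b15_nt

open Finset Polynomial

section

variable {F E : Type*} [Field F] [Fintype F] [Field E] [Fintype E] [Algebra F E]

/-- Elements fixed by the Frobenius come from `F`. -/
lemma exists_algebraMap (y : E) (hy : y ^ Fintype.card F = y) : ∃ x : F, algebraMap F E x = y := by
  classical
  have hQ := Fintype.one_lt_card (α := F)
  set P : E[X] := X ^ Fintype.card F - X with hP
  have hP0 : P ≠ 0 := FiniteField.X_pow_card_sub_X_ne_zero E hQ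
  have hdeg : P.natDegree = Fintype.card F := FiniteField.X_pow_card_sub_X_natDegree_eq E hQ
  set S1 : Finset E := univ.image (algebraMap F E) with hS1
  set S2 : Finset E := P.roots.toFinset with hS2
  have hsub : S1 ⊆ S2 := by
    intro z hz
    rw [hS1, Finset.mem_image] at hz
    obtain ⟨x, -, rfl⟩ := hz
    rw [hS2, Multiset.mem_toFinset, mem_roots hP0, IsRoot.def, hP]
    simp only [eval_sub, eval_pow, eval_X]
    rw [← map_pow, FiniteField.pow_card, sub_self]
  have hcard : S2.card ≤ S1.card := by
    have h1 : S1.card = Fintype.card F := by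
      rw [hS1, Finset.card_image_of_injective _ (algebraMap F E).injective, Finset.card_univ]
    rw [h1, ← hdeg]
    exact (Multiset.toFinset_card_le _).trans (card_roots' P)
  have heq := Finset.eq_of_subset_of_card_le hsub hcard
  have hyS : y ∈ S2 := by
    rw [hS2, Multiset.mem_toFinset, mem_roots hP0, IsRoot.def, hP]
    simp only [eval_sub, eval_pow, eval_X]
    rw [hy, sub_self]
  rw [← heq, hS1, Finset.mem_image] at hyS
  obtain ⟨x, -, hx⟩ := hyS
  exact ⟨x, hx⟩

/-- a left inverse of the inclusion `F → E` -/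
noncomputable def down : E → F := Function.invFun (algebraMap F E)

omit [Fintype F] [Fintype E] in
lemma down_algebraMap (x : F) : down (algebraMap F E x) = x :=
  Function.leftInverse_invFun (algebraMap F E).injective x

lemma algebraMap_down {y : E} (hy : y ^ Fintype.card F = y) :
    algebraMap F E (down y) = y := by
  obtain ⟨x, rfl⟩ := exists_algebraMap (F := F) y hy
  rw [down_algebraMap]

variable (hE : Fintype.card E = Fintype.card F ^ 2) (h2 : ringChar F ≠ 2)

include hE h2

lemma card_odd : ∃ m, Fintype.card F = 2 * m + 1 ∧ 0 < m := by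
  have h := FiniteField.odd_card_of_char_ne_two h2
  have hQ := Fintype.one_lt_card (α := F)
  exact ⟨Fintype.card F / 2, by omega, by omega⟩

lemma ringChar_E : ringChar E ≠ 2 := by
  rw [← Algebra.ringChar_eq F E]
  exact h2

lemma two_ne_zero_E : (2 : E) ≠ 0 := Ring.two_ne_zero (ringChar_E hE h2)

lemma isSquare_algebraMap (a : F) : IsSquare (algebraMap F E a) := by
  by_cases ha : a = 0
  · rw [ha, map_zero]; exact IsSquare.zero
  · have hne : algebraMap F E a ≠ 0 := by
      intro h
      exact ha ((map_eq_zero_iff _ (algebraMap F E).injective).mp h)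
    rw [FiniteField.isSquare_iff (ringChar_E hE h2) hne, hE]
    obtain ⟨m, hm, -⟩ := card_odd hE h2
    have h1 : Fintype.card F ^ 2 / 2 = (Fintype.card F - 1) * (m + 1) := by
      rw [hm]
      have : (2 * m + 1) ^ 2 = 2 * ((2 * m + 1 - 1) * (m + 1)) + 1 := by
        simp only [Nat.add_sub_cancel]; ring
      rw [this]
      omega
    rw [h1, pow_mul, ← map_pow, FiniteField.pow_card_sub_one_eq_one a ha, map_one, one_pow]

/-- every `x` in `F` is of the form `r + 1/r` with `r` in `E` -/
lemma exists_root (x : F) : ∃ r : E, r ≠ 0 ∧ r + r⁻¹ = algebraMap F E x := by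
  obtain ⟨d, hd⟩ := isSquare_algebraMap (E := E) hE h2 (x ^ 2 - 4)
  have h20 := two_ne_zero_E (F := F) (E := E) hE h2
  have h1 : d * d = (algebraMap F E x) ^ 2 - 4 := by
    rw [← hd]; simp only [map_sub, map_pow, map_ofNat]
  set r : E := (algebraMap F E x + d) / 2 with hr
  have h3 : r ^ 2 - algebraMap F E x * r + 1 = 0 := by
    rw [hr]
    field_simp
    linear_combination h1
  have hr0 : r ≠ 0 := by
    intro h
    rw [h] at h3
    simp at h3
  refine ⟨r, hr0, ?_⟩
  field_simp
  linear_combination h3

omit hE h2 [Fintype F] [Fintype E] [Algebra F E] in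
lemma add_inv_eq_iff {r s : E} (hr : r ≠ 0) (hs : s ≠ 0) :
    s + s⁻¹ = r + r⁻¹ ↔ s = r ∨ s = r⁻¹ := by
  constructor
  · intro h
    have h1 : (s - r) * (s - r⁻¹) = 0 := by
      have h2 : s * (s + s⁻¹) = s * (r + r⁻¹) := by rw [h]
      rw [mul_add, mul_inv_cancel₀ hs] at h2
      have h3 : r * r⁻¹ = 1 := mul_inv_cancel₀ hr
      linear_combination h2 + h3
    rcases mul_eq_zero.mp h1 with h | h
    · left; exact sub_eq_zero.mp h
    · right; exact sub_eq_zero.mp h
  · rintro (rfl | rfl)
    · rfl
    · rw [inv_inv, add_comm]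

omit hE h2 in
lemma add_inv_frob {s : E} (hs : s ^ (Fintype.card F - 1) = 1 ∨ s ^ (Fintype.card F + 1) = 1) :
    (s + s⁻¹) ^ Fintype.card F = s + s⁻¹ := by
  have hQ := Fintype.one_lt_card (α := F)
  have hadd : ∀ a b : E, (a + b) ^ Fintype.card F = a ^ Fintype.card F + b ^ Fintype.card F := by
    intro a b
    obtain ⟨p, hp⟩ := CharP.exists F
    have hpp : Fact p.Prime := ⟨CharP.char_is_prime F p⟩
    obtain ⟨n, -, hn⟩ := FiniteField.card F p
    have : CharP E p := charP_of_injective_algebraMap (algebraMap F E).injective p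
    rw [hn, add_pow_char_pow]
  rw [hadd]
  have hs0 : s ≠ 0 := by
    rintro rfl
    rcases hs with h | h
    · rw [zero_pow (by omega)] at h
      exact zero_ne_one h
    · rw [zero_pow (by omega)] at h
      exact zero_ne_one h
  rcases hs with h | h
  · have h1 : s ^ Fintype.card F = s := by
      have : Fintype.card F = (Fintype.card F - 1) + 1 := by omega
      rw [this, pow_succ, h, one_mul]
    rw [inv_pow, h1]
  · have h1 : s ^ Fintype.card F = s⁻¹ := by
      rw [pow_succ] at h
      exact eq_inv_of_mul_eq_one_left h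
    rw [inv_pow, h1, inv_inv, add_comm]

/-- **Torus decomposition**. -/
theorem torus_sum [DecidableEq E] {A : Type*} [CommRing A] (G : F → A) :
    ∑ s ∈ univ.filter (fun s : E => s ^ (Fintype.card F - 1) = 1), G (down (s + s⁻¹)) +
    ∑ s ∈ univ.filter (fun s : E => s ^ (Fintype.card F + 1) = 1), G (down (s + s⁻¹)) =
      2 * ∑ x, G x := by
  classical
  have hQ := Fintype.one_lt_card (α := F)
  obtain ⟨m, hm, hm0⟩ := card_odd hE h2
  set U1 := univ.filter (fun s : E => s ^ (Fintype.card F - 1) = 1) with hU1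
  set U2 := univ.filter (fun s : E => s ^ (Fintype.card F + 1) = 1) with hU2
  rw [← Finset.sum_fiberwise (s := U1) (g := fun s : E => (down (s + s⁻¹) : F)),
    ← Finset.sum_fiberwise (s := U2) (g := fun s : E => (down (s + s⁻¹) : F)),
    ← Finset.sum_add_distrib, Finset.mul_sum]
  refine Finset.sum_congr rfl fun x _ => ?_
  have hc : ∀ U : Finset E, ∑ i ∈ U.filter (fun s : E => (down (s + s⁻¹) : F) = x),
      G (down (i + i⁻¹)) = (U.filter (fun s : E => (down (s + s⁻¹) : F) = x)).card * G x := by
    intro U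
    rw [Finset.sum_congr rfl (fun i hi => by rw [(Finset.mem_filter.mp hi).2]),
      Finset.sum_const, nsmul_eq_mul]
  rw [hc, hc, ← add_mul]
  congr 1
  obtain ⟨r, hr0, hrx⟩ := exists_root (E := E) hE h2 x
  have hne0 : ∀ {s : E} {k : ℕ}, 0 < k → s ^ k = 1 → s ≠ 0 := by
    rintro s k hk h rfl
    rw [zero_pow hk.ne'] at h
    exact zero_ne_one h
  have hF1 : U1.filter (fun s : E => (down (s + s⁻¹) : F) = x) =
      ({r, r⁻¹} : Finset E).filter (fun s => s ^ (Fintype.card F - 1) = 1) := by
    ext s
    simp only [hU1, Finset.mem_filter, Finset.mem_univ, true_and, Finset.mem_insert,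
      Finset.mem_singleton]
    constructor
    · rintro ⟨h1, h3⟩
      refine ⟨?_, h1⟩
      rw [← add_inv_eq_iff hr0 (hne0 (by omega) h1), hrx, ← h3,
        algebraMap_down (add_inv_frob (Or.inl h1))]
    · rintro ⟨h1, h3⟩
      refine ⟨h3, ?_⟩
      rw [← add_inv_eq_iff hr0 (hne0 (by omega) h3), hrx] at h1
      rw [h1, down_algebraMap]
  have hF2 : U2.filter (fun s : E => (down (s + s⁻¹) : F) = x) =
      ({r, r⁻¹} : Finset E).filter (fun s => s ^ (Fintype.card F + 1) = 1) := by
    ext s
    simp only [hU2, Finset.mem_filter, Finset.mem_univ, true_and, Finset.mem_insert,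
      Finset.mem_singleton]
    constructor
    · rintro ⟨h1, h3⟩
      refine ⟨?_, h1⟩
      rw [← add_inv_eq_iff hr0 (hne0 (by omega) h1), hrx, ← h3,
        algebraMap_down (add_inv_frob (Or.inr h1))]
    · rintro ⟨h1, h3⟩
      refine ⟨h3, ?_⟩
      rw [← add_inv_eq_iff hr0 (hne0 (by omega) h3), hrx] at h1
      rw [h1, down_algebraMap]
  rw [hF1, hF2]
  -- `r ^ Q` is `r` or `r⁻¹`
  have hrQ : r ^ Fintype.card F = r ∨ r ^ Fintype.card F = r⁻¹ := by
    rw [← add_inv_eq_iff hr0 (pow_ne_zero _ hr0)]
    have hadd : ∀ a b : E, (a + b) ^ Fintype.card F = a ^ Fintype.card F + b ^ Fintype.card F := by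
      intro a b
      obtain ⟨p, hp⟩ := CharP.exists F
      have hpp : Fact p.Prime := ⟨CharP.char_is_prime F p⟩
      obtain ⟨n, -, hn⟩ := FiniteField.card F p
      have : CharP E p := charP_of_injective_algebraMap (algebraMap F E).injective p
      rw [hn, add_pow_char_pow]
    rw [← inv_pow, ← hadd, hrx, ← map_pow, FiniteField.pow_card]
  have hA : r ^ Fintype.card F = r → r ^ (Fintype.card F - 1) = 1 := by
    intro h
    have h1 : Fintype.card F = (Fintype.card F - 1) + 1 := by omega
    rw [h1, pow_succ] at h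
    exact (mul_eq_right₀ hr0).mp h
  have hB : r ^ Fintype.card F = r⁻¹ → r ^ (Fintype.card F + 1) = 1 := by
    intro h
    rw [pow_succ, h, inv_mul_cancel₀ hr0]
  have hinv1 : ∀ k, (r⁻¹) ^ k = 1 ↔ r ^ k = 1 := by
    intro k
    rw [inv_pow, inv_eq_one]
  have hcount : ∀ k, (({r, r⁻¹} : Finset E).filter (fun s => s ^ k = 1)) =
      if r ^ k = 1 then {r, r⁻¹} else ∅ := by
    intro k
    split_ifs with h
    · rw [Finset.filter_eq_self]
      intro s hs
      rw [Finset.mem_insert, Finset.mem_singleton] at hs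
      rcases hs with rfl | rfl
      · exact h
      · rw [hinv1]; exact h
    · rw [Finset.filter_eq_empty_iff]
      intro s hs
      rw [Finset.mem_insert, Finset.mem_singleton] at hs
      rcases hs with rfl | rfl
      · exact h
      · rw [hinv1]; exact h
  rw [hcount, hcount]
  by_cases hrr : r = r⁻¹
  · have hr2 : r ^ 2 = 1 := by
      rw [sq]; nth_rewrite 2 [hrr]; exact mul_inv_cancel₀ hr0
    have h1 : r ^ (Fintype.card F - 1) = 1 := by
      have : Fintype.card F - 1 = 2 * m := by omega
      rw [this, pow_mul, hr2, one_pow]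
    have h3 : r ^ (Fintype.card F + 1) = 1 := by
      have : Fintype.card F + 1 = 2 * (m + 1) := by omega
      rw [this, pow_mul, hr2, one_pow]
    rw [if_pos h1, if_pos h3, ← hrr]
    simp
    norm_num
  · have hcard2 : ({r, r⁻¹} : Finset E).card = 2 := Finset.card_pair hrr
    rcases hrQ with h | h
    · have h3 : ¬ r ^ (Fintype.card F + 1) = 1 := by
        intro h4
        rw [pow_succ, h] at h4
        exact hrr (eq_inv_of_mul_eq_one_left h4)
      rw [if_pos (hA h), if_neg h3, hcard2]
      simp
    · have h3 : ¬ r ^ (Fintype.card F - 1) = 1 := by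
        intro h4
        have h1 : Fintype.card F = (Fintype.card F - 1) + 1 := by omega
        rw [h1, pow_succ, h4, one_mul] at h
        exact hrr h
      rw [if_pos (hB h), if_neg h3, hcard2]
      simp

end

end Pool.Agent.Work.MP_a01b15_nt
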