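import Pool.Agent.Work.MP_a01b15_nt.Count
import Pool.Agent.Work.MP_a01b15_nt.Stick

set_option autoImplicit false

namespace Pool.Agent.Work.MP_a01b15_nt

open Finset

section

variable {K : Type*} [Field K] [Fintype K] {L : Type*} [Field L]

/-- the absolute value of a Gauss sum -/
lemma norm_gaussSum_sq (ι : L →+* ℂ) (χ : MulChar K L) (hχ : χ ≠ 1) (ψ : AddChar K L)
    (hψ : ψ.IsPrimitive) : ‖ι (gaussSum χ ψ)‖ ^ 2 = Fintype.card K := by
  have h1 : star (ι (gaussSum χ ψ)) = ι (gaussSum χ⁻¹ ψ⁻¹) := by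
    set χ' : MulChar K ℂ := χ.ringHomComp ι with hχ'
    set ψ' : AddChar K ℂ := (ι : L →* ℂ).compAddChar ψ with hψ'
    have e1 : ι (gaussSum χ ψ) = gaussSum χ' ψ' := by
      simp only [gaussSum, map_sum, map_mul]
      rfl
    have e2 : ι (gaussSum χ⁻¹ ψ⁻¹) = gaussSum χ'⁻¹ ψ'⁻¹ := by
      simp only [gaussSum, map_sum, map_mul, AddChar.inv_apply, MulChar.inv_apply']
      rfl
    rw [e1, e2, star_gaussSum_eq]
  have h2 := congrArg ι (gaussSum_mul_gaussSum_eq_card hχ hψ)
  rw [map_mul, ← h1, map_natCast] at h2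
  have h3 : ((‖ι (gaussSum χ ψ)‖ ^ 2 : ℝ) : ℂ) = (Fintype.card K : ℂ) := by
    rw [← h2, Complex.ofReal_pow, ← Complex.mul_conj']
    rfl
  exact_mod_cast h3

/-- the quadratic character with values in `L` -/
noncomputable def quadL (K : Type*) [Field K] [Fintype K] [DecidableEq K] (L : Type*) [Field L] :
    MulChar K L := (quadraticChar K).ringHomComp (Int.castRingHom L)

lemma quadL_apply [DecidableEq K] (x : K) : quadL K L x = ((quadraticChar K x : ℤ) : L) := rfl

lemma quadL_ne_one [DecidableEq K] [CharZero L] (hK : ringChar K ≠ 2) : quadL K L ≠ 1 := by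
  obtain ⟨a, ha⟩ := quadraticChar_exists_neg_one hK
  intro h
  have h1 := congrArg (fun f : MulChar K L => f a) h
  simp only [quadL_apply, ha] at h1
  by_cases ha0 : a = 0
  · rw [ha0, quadraticChar_zero] at ha
    exact absurd ha (by norm_num)
  · have : (1 : MulChar K L) a = 1 := MulChar.one_apply (isUnit_iff_ne_zero.mpr ha0)
    rw [this] at h1
    push_cast at h1
    have h2 : (2 : L) = 0 := by linear_combination -h1
    exact two_ne_zero h2

lemma quadL_sq [DecidableEq K] (hK : ringChar K ≠ 2) : quadL K L ^ 2 = 1 := by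
  ext x
  rw [MulChar.pow_apply_coe, MulChar.one_apply_coe, quadL_apply]
  rcases quadraticChar_dichotomy x.ne_zero with h | h <;> rw [h] <;> norm_num

/-- a character of order `4 l`: its `2 l`-th power is the quadratic character -/
lemma pow_eq_quadL [DecidableEq K] [CharZero L] {l : ℕ} (hl : 0 < l) (χ : MulChar K L)
    (hχ : orderOf χ = 4 * l) : χ ^ (2 * l) = quadL K L := by
  have h1 : orderOf (χ ^ (2 * l)) = 2 := by
    rw [orderOf_pow' _ (by omega), hχ]
    have : Nat.gcd (4 * l) (2 * l) = 2 * l := by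
      rw [Nat.gcd_eq_right]
      exact ⟨2, by ring⟩
    rw [this, Nat.div_eq_of_eq_mul_left (by omega)]
    ring
  ext x
  rw [eq_quadraticChar _ h1, quadL_apply]

lemma star_sq_quadL [DecidableEq K] [CharZero L] (v : AbsoluteValue L ℝ)
    (hK : ringChar K ≠ 2) (ψ : AddChar K L) (hψ : ψ.IsPrimitive) (q : ℕ)
    (hq : Fintype.card K = q ^ 2) : v (gaussSum (quadL K L) ψ) = v (q : L) := by
  have h1 := v_gaussSum_mul_inv (v := v) (quadL K L) (quadL_ne_one hK) ψ hψ
  have h2 : (quadL K L)⁻¹ = quadL K L := by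
    rw [inv_eq_iff_mul_eq_one, ← sq, quadL_sq hK]
  rw [h2, hq, Nat.cast_pow, v.map_pow, ← sq] at h1
  exact (pow_left_inj₀ (v.nonneg _) (v.nonneg _) two_ne_zero).mp h1

end

section split

variable {F : Type*} [Field F] [Fintype F] [DecidableEq F] {L : Type*} [Field L] [CharZero L]

lemma TT_jacobi (χ : MulChar F L) :
    TT χ (fun w => ((quadraticChar F (1 + w) : ℤ) : L)) = χ (-1) * jacobiSum χ (quadL F L) := by
  rw [TT, jacobiSum, Finset.mul_sum]
  refine Fintype.sum_equiv (Equiv.neg F) _ _ fun w => ?_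
  simp only [Equiv.neg_apply, quadL_apply, sub_neg_eq_add]
  rw [← mul_assoc, ← map_mul]
  congr 2
  ring

lemma mulChar_neg_one_sq (χ : MulChar F L) : (χ (-1)) ^ 2 = 1 := by
  rw [← map_pow]
  simp

/-- **The split case**. -/
theorem split_case (ι : L →+* ℂ) (v : AbsoluteValue L ℝ) (hF : ringChar F ≠ 2) {l : ℕ}
    (hl : l.Prime) (hl2 : l % 2 = 1) (q : ℕ) (hq : Fintype.card F = q ^ 2)
    (ψ : AddChar F L) (hψ : ψ.IsPrimitive)
    (hS : ∑ t : F, (quadraticChar F (t ^ l) * quadraticChar F (1 + (t ^ l) ^ 2) -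
      quadraticChar F t * quadraticChar F (1 + t ^ 2)) = 2 * ((l - 1 : ℕ) * q : ℤ))
    (χ : MulChar F L) (hχ : orderOf χ = 4 * l) :
    v (gaussSum (χ ^ (1 + 2 * l)) ψ) = v (gaussSum χ ψ) := by
  have hq0 : 0 < q := by
    rcases Nat.eq_zero_or_pos q with h | h
    · rw [h] at hq
      have := Fintype.one_lt_card (α := F)
      simp at hq
    · exact h
  have hnt : ∀ χ : MulChar F L, orderOf χ = 4 * l → χ ≠ 1 ∧ χ * quadL F L ≠ 1 := by
    intro χ hχ
    have hl0 := hl.pos
    refine ⟨?_, ?_⟩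
    · rintro rfl
      rw [orderOf_one] at hχ
      omega
    · intro h
      rw [← pow_eq_quadL hl0 χ hχ, ← pow_succ', ← orderOf_dvd_iff_pow_eq_one, hχ] at h
      have := Nat.le_of_dvd (by omega) h
      omega
  have hJ : ∀ χ : MulChar F L, orderOf χ = 4 * l →
      gaussSum (χ * quadL F L) ψ * jacobiSum χ (quadL F L) =
        gaussSum χ ψ * gaussSum (quadL F L) ψ := fun χ hχ => jacobiSum_mul_nontrivial (hnt χ hχ).2 ψ
  have hb : ∀ χ : MulChar F L, orderOf χ = 4 * l →
      ‖ι (TT χ (fun w => ((quadraticChar F (1 + w) : ℤ) : L)))‖ ≤ (q : ℕ) := by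
    intro χ hχ
    have h1 := congrArg (fun z => ‖ι z‖ ^ 2) (hJ χ hχ)
    simp only [map_mul, norm_mul, mul_pow] at h1
    rw [norm_gaussSum_sq ι _ (hnt χ hχ).2 ψ hψ, norm_gaussSum_sq ι _ (hnt χ hχ).1 ψ hψ,
      norm_gaussSum_sq ι _ (quadL_ne_one hF) ψ hψ] at h1
    have hc0 : (Fintype.card F : ℝ) ≠ 0 := by
      have := Fintype.card_pos (α := F)
      positivity
    have h3 : ‖ι (jacobiSum χ (quadL F L))‖ ^ 2 = Fintype.card F := mul_left_cancel₀ hc0 h1
    rw [TT_jacobi, map_mul, norm_mul]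
    have h4 : ‖ι (χ (-1))‖ = 1 := by
      have := congrArg (fun z => ‖ι z‖) (mulChar_neg_one_sq χ)
      simp only [map_pow, norm_pow, map_one, norm_one] at this
      exact (pow_eq_one_iff_of_nonneg (norm_nonneg _) two_ne_zero).mp this
    rw [h4, one_mul]
    rw [hq] at h3
    push_cast at h3
    exact ((pow_left_inj₀ (norm_nonneg _) (Nat.cast_nonneg q) two_ne_zero).mp h3).le
  have hsum : ∑ z : F, (((quadraticChar F (z ^ l) : ℤ) : L) *
      (fun w => ((quadraticChar F (1 + w) : ℤ) : L)) ((z ^ l) ^ 2) -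
      ((quadraticChar F z : ℤ) : L) * (fun w => ((quadraticChar F (1 + w) : ℤ) : L)) (z ^ 2)) =
        ((2 * (l - 1) * q : ℕ) : L) := by
    have := congrArg (Int.cast : ℤ → L) hS
    push_cast at this
    simp only
    rw [this]
    push_cast
    ring
  obtain ⟨h1, -⟩ := TT_eq hF ι hl hl2 (fun w => ((quadraticChar F (1 + w) : ℤ) : L)) q hb hsum χ hχ
  rw [TT_jacobi] at h1
  have h2 := congrArg v (hJ χ hχ)
  have h3 := congrArg v h1
  rw [v.map_mul] at h3
  rw [v.map_mul, v.map_mul, star_sq_quadL v hF ψ hψ q hq] at h2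
  have h4 : v (χ (-1)) = 1 := by
    have := congrArg v (mulChar_neg_one_sq χ)
    rw [v.map_pow, v.map_one] at this
    exact (pow_eq_one_iff_of_nonneg (v.nonneg _) two_ne_zero).mp this
  rw [h4, one_mul] at h3
  rw [h3] at h2
  have h5 : v (q : L) ≠ 0 := by
    rw [v.ne_zero_iff]
    exact_mod_cast hq0.ne'
  have h6 := mul_right_cancel₀ h5 h2
  rw [pow_add, pow_one, pow_eq_quadL hl.pos χ hχ]
  exact h6

end split

section nonsplit

variable {F E : Type*} [Field F] [Fintype F] [DecidableEq F] [Field E] [Fintype E]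
  [DecidableEq E] [Algebra F E] {L : Type*} [Field L] [CharZero L]

/-- The key identity in the nonsplit case. -/
lemma TT_trace (hF : ringChar F ≠ 2) (ψ : AddChar F L) (ψE : AddChar E L)
    (hψE : ∀ x, ψE x = ψ (Algebra.trace F E x)) (χ : MulChar E L) :
    gaussSum (quadL F L) ψ * TT χ (fun w => ((quadraticChar F (Algebra.trace F E w) : ℤ) : L)) =
      gaussSum χ ψE * ∑ t : F, quadL F L t * χ⁻¹ (algebraMap F E t) := by
  have h1 : ∀ x : F, gaussSum (quadL F L) ψ * ((quadraticChar F x : ℤ) : L) =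
      ∑ t : F, quadL F L t * ψ (t * x) := by
    intro x
    by_cases hx : x = 0
    · rw [hx, quadraticChar_zero]
      simp only [Int.cast_zero, mul_zero, AddChar.map_zero_eq_one, mul_one]
      exact (MulChar.sum_eq_zero_of_ne_one (quadL_ne_one hF)).symm
    · have h2 := gaussSum_mulShift (quadL F L) ψ (Units.mk0 x hx)
      rw [← h2, Units.val_mk0, quadL_apply]
      have h3 : ((quadraticChar F x : ℤ) : L) * ((quadraticChar F x : ℤ) : L) = 1 := by
        rcases quadraticChar_dichotomy hx with h | h <;> rw [h] <;> norm_num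
      have h4 : gaussSum (quadL F L) (AddChar.mulShift ψ x) = ∑ t : F, quadL F L t * ψ (t * x) := by
        rw [gaussSum]
        refine Finset.sum_congr rfl fun t _ => ?_
        rw [AddChar.mulShift_apply, mul_comm x t]
      rw [h4]
      linear_combination (∑ t : F, quadL F L t * ψ (t * x)) * h3
  rw [TT, Finset.mul_sum]
  have h2 : ∀ w : E, gaussSum (quadL F L) ψ *
      (χ w * ((quadraticChar F (Algebra.trace F E w) : ℤ) : L)) =
        ∑ t : F, quadL F L t * (χ w * ψE (algebraMap F E t * w)) := by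
    intro w
    rw [mul_left_comm, h1, Finset.mul_sum]
    refine Finset.sum_congr rfl fun t _ => ?_
    rw [hψE, ← Algebra.smul_def, map_smul, smul_eq_mul]
    ring
  rw [Finset.sum_congr rfl fun w _ => h2 w, Finset.sum_comm, Finset.mul_sum]
  refine Finset.sum_congr rfl fun t _ => ?_
  rw [← Finset.mul_sum]
  by_cases ht : t = 0
  · rw [ht, quadL_apply, quadraticChar_zero]
    simp
  · have ht' : algebraMap F E t ≠ 0 := by
      intro h
      exact ht ((map_eq_zero_iff _ (algebraMap F E).injective).mp h)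
    have h3 := gaussSum_mulShift_eq χ ψE (Units.mk0 _ ht')
    rw [Units.val_mk0] at h3
    have h4 : ∑ w, χ w * ψE (algebraMap F E t * w) =
        gaussSum χ (ψE.mulShift (algebraMap F E t)) := rfl
    rw [h4, h3]
    ring

lemma sum_restrict (χ : MulChar E L) :
    (∑ t : F, quadL F L t * χ⁻¹ (algebraMap F E t) = 0) ∨
    (∑ t : F, quadL F L t * χ⁻¹ (algebraMap F E t) = ((Fintype.card F - 1 : ℕ) : L)) := by
  set θ : MulChar F L := quadL F L *
    { toMonoidHom := (χ⁻¹ : MulChar E L).toMonoidHom.comp (algebraMap F E : F →* E)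
      map_nonunit' := by
        intro a ha
        have : a = 0 := by
          by_contra h
          exact ha (isUnit_iff_ne_zero.mpr h)
        rw [this]
        change (χ⁻¹ : MulChar E L) (algebraMap F E 0) = 0
        rw [map_zero]
        exact MulChar.map_nonunit _ not_isUnit_zero } with hθ
  have h1 : ∑ t : F, quadL F L t * χ⁻¹ (algebraMap F E t) = ∑ t, θ t := rfl
  rw [h1]
  by_cases h : θ = 1
  · right
    rw [h, MulChar.sum_one_eq_card_units, Fintype.card_units]
  · left
    exact MulChar.sum_eq_zero_of_ne_one h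

/-- **The nonsplit case**. -/
theorem nonsplit_case (ι : L →+* ℂ) (v : AbsoluteValue L ℝ) (hF : ringChar F ≠ 2)
    (hE2 : ringChar E ≠ 2) (hE : Fintype.card E = Fintype.card F ^ 2) {l : ℕ}
    (hl : l.Prime) (hl2 : l % 2 = 1) (q : ℕ) (hq : Fintype.card F = q ^ 2)
    (ψ : AddChar F L) (hψ : ψ.IsPrimitive) (ψE : AddChar E L) (hψEp : ψE.IsPrimitive)
    (hψE : ∀ x, ψE x = ψ (Algebra.trace F E x))
    (hS : ∑ z : E, (quadraticChar E (z ^ l) *
        quadraticChar F (Algebra.trace F E ((z ^ l) ^ 2)) -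
      quadraticChar E z * quadraticChar F (Algebra.trace F E (z ^ 2))) =
        (Fintype.card F - 1 : ℕ) * (2 * ((l - 1 : ℕ) * q : ℤ)))
    (χ : MulChar E L) (hχ : orderOf χ = 4 * l) :
    v (gaussSum (χ ^ (1 + 2 * l)) ψE) = v (gaussSum χ ψE) := by
  have hQ := Fintype.one_lt_card (α := F)
  have hq0 : 0 < q := by
    rcases Nat.eq_zero_or_pos q with h | h
    · rw [h] at hq
      simp at hq
    · exact h
  set k : E → L := fun w => ((quadraticChar F (Algebra.trace F E w) : ℤ) : L) with hk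
  set C : ℕ := (Fintype.card F - 1) * q with hC
  have hne : ∀ χ : MulChar E L, orderOf χ = 4 * l → χ ≠ 1 := by
    intro χ hχ
    have hl0 := hl.pos
    rintro rfl
    rw [orderOf_one] at hχ
    omega
  have hgq : ‖ι (gaussSum (quadL F L) ψ)‖ = q := by
    have := norm_gaussSum_sq ι _ (quadL_ne_one hF) ψ hψ
    rw [hq] at this
    push_cast at this
    exact (pow_left_inj₀ (norm_nonneg _) (Nat.cast_nonneg q) two_ne_zero).mp this
  have hgE : ∀ χ : MulChar E L, orderOf χ = 4 * l → ‖ι (gaussSum χ ψE)‖ = (q : ℝ) ^ 2 := by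
    intro χ hχ
    have := norm_gaussSum_sq ι χ (hne χ hχ) ψE hψEp
    rw [hE, hq] at this
    push_cast at this
    exact (pow_left_inj₀ (norm_nonneg _) (by positivity) two_ne_zero).mp this
  have hqR : (0 : ℝ) < q := by exact_mod_cast hq0
  have hb : ∀ χ : MulChar E L, orderOf χ = 4 * l → ‖ι (TT χ k)‖ ≤ (C : ℕ) := by
    intro χ hχ
    have h1 := congrArg (fun z => ‖ι z‖) (TT_trace hF ψ ψE hψE χ)
    simp only [map_mul, norm_mul] at h1
    rw [hgq, hgE χ hχ] at h1
    have h2 : ‖ι (∑ t : F, quadL F L t * χ⁻¹ (algebraMap F E t))‖ ≤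
        ((Fintype.card F - 1 : ℕ) : ℝ) := by
      rcases sum_restrict (F := F) χ with h | h <;> rw [h]
      · simp
      · rw [map_natCast, Complex.norm_natCast]
    have h3 : (q : ℝ) * ‖ι (TT χ k)‖ ≤ (q : ℝ) * (C : ℕ) := by
      calc (q : ℝ) * ‖ι (TT χ k)‖ = (q : ℝ) ^ 2 *
            ‖ι (∑ t : F, quadL F L t * χ⁻¹ (algebraMap F E t))‖ := h1
        _ ≤ (q : ℝ) ^ 2 * ((Fintype.card F - 1 : ℕ) : ℝ) :=
            mul_le_mul_of_nonneg_left h2 (by positivity)
        _ = (q : ℝ) * (C : ℕ) := by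
            rw [hC]; push_cast; ring
    exact le_of_mul_le_mul_left h3 hqR
  have hsum : ∑ z : E, (((quadraticChar E (z ^ l) : ℤ) : L) * k ((z ^ l) ^ 2) -
      ((quadraticChar E z : ℤ) : L) * k (z ^ 2)) = ((2 * (l - 1) * C : ℕ) : L) := by
    have := congrArg (Int.cast : ℤ → L) hS
    push_cast at this
    simp only [hk]
    rw [this, hC]
    push_cast
    ring
  have hval : ∀ χ : MulChar E L, TT χ k = C → v (gaussSum χ ψE) = v (q : L) * v (q : L) := by
    intro χ h
    have h1 := TT_trace hF ψ ψE hψE χ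
    have h0 : TT χ (fun w => ((quadraticChar F (Algebra.trace F E w) : ℤ) : L)) = C := h
    have hQ1 : ((Fintype.card F - 1 : ℕ) : L) ≠ 0 := by
      have : Fintype.card F - 1 ≠ 0 := by omega
      exact_mod_cast this
    have hqL : (q : L) ≠ 0 := by exact_mod_cast hq0.ne'
    rw [h0] at h1
    rcases sum_restrict (F := F) χ with h2 | h2
    · exfalso
      rw [h2, mul_zero] at h1
      have h3 := congrArg (fun z => ‖ι z‖) h1
      simp only [map_mul, norm_mul, map_zero, norm_zero] at h3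
      rw [hgq, map_natCast, Complex.norm_natCast, hC] at h3
      have : (0 : ℝ) < ((Fintype.card F - 1) * q : ℕ) := by
        have : 0 < (Fintype.card F - 1) * q := Nat.mul_pos (by omega) hq0
        exact_mod_cast this
      rcases mul_eq_zero.mp h3 with h4 | h4
      · exact hqR.ne' h4
      · exact this.ne' h4
    · rw [h2, hC] at h1
      have h3 : gaussSum χ ψE = gaussSum (quadL F L) ψ * q := by
        apply mul_right_cancel₀ hQ1
        rw [← h1]
        push_cast
        ring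
      rw [h3, v.map_mul, star_sq_quadL v hF ψ hψ q hq]
  obtain ⟨h1, h2⟩ := TT_eq hE2 ι hl hl2 k C hb hsum χ hχ
  rw [hval _ h1, hval _ h2]

end nonsplit

end Pool.Agent.Work.MP_a01b15_nt
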